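import Pool.Agent.Y363.SnpData

set_option autoImplicit false
set_option maxRecDepth 100000

namespace Pool.Agent.Y363.SnpData

open Pool.Agent.Y363.SchurList

theorem chk_p0 : chk 12 11 (stepV (PT.getD 11 []) cL)
    ((List.replicate 12 0).set 0 ((List.replicate 12 0).getD 0 0 + 1)) = true := by decide +kernel

theorem chk_p1 : (List.range' 1 11).all (fun i => chk 12 (11 - i) (stepV (PT.getD (11 - i) []) cL)
    ((List.replicate 12 0).set i ((List.replicate 12 0).getD i 0 + 1))) = true := by decide +kernel

theorem chk_true : chk 13 12 cL (List.replicate 12 0) = true := by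
  simp only [chk]
  rw [List.all_eq_true]
  intro i hi
  rw [List.mem_range] at hi
  rcases Nat.eq_zero_or_pos i with h | h
  · subst h
    exact chk_p0
  · exact List.all_eq_true.1 chk_p1 i (List.mem_range'.2 ⟨i - 1, by omega, by omega⟩)

end Pool.Agent.Y363.SnpData
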