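import Pool.Agent.Y363.SnpData

set_option autoImplicit false

namespace Pool.Agent.Y363.SnpData

def sumO : List ℕ → (ℕ → ℕ) → ℕ
  | [], _ => 0
  | S :: t, f => Nat.add (f S) (sumO t f)

def sumP : List (ℕ × List ℕ) → (ℕ → List ℕ → ℕ) → ℕ
  | [], _ => 0
  | (i, L) :: t, f => Nat.add (f i L) (sumP t f)

/-- forces kernel evaluation of the argument -/
def force (W : ℕ) (f : ℕ → ℕ) : ℕ := Nat.rec (f 0) (fun n _ => f (Nat.succ n)) W

theorem force_eq (W : ℕ) (f : ℕ → ℕ) : force W f = f W := by
  cases W <;> rfl

/-- fast version of `cnt`: `ms` packed in base 16; table indices replaced by `16^i` -/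
def cntN : List (ℕ × List (ℕ × List ℕ)) → ℕ → ℕ → ℕ
  | [], W, ms => cond (Nat.beq W 0) (cond (Nat.beq ms 0) 1 0) 0
  | (b, tv) :: rest, W, ms =>
    cond (Nat.beq (Nat.land W b) 0) (cntN rest W ms)
      (sumP tv (fun u L => cond (Nat.beq (Nat.land (Nat.div ms u) 15) 0) 0
        (Nat.mul (Nat.land (Nat.div ms u) 15) (sumO L (fun S =>
          cond (Nat.beq (Nat.land S W) S) (force (Nat.xor W S) fun W' => force (Nat.sub ms u) fun ms' => cntN rest W' ms') 0)))))

def tabs16 : List (ℕ × List (ℕ × List ℕ)) := [
  (1, [(1, [1]), (16, [3, 5, 9, 65, 129, 257, 513, 2049]), (256, [7, 67, 69, 73, 131, 133, 193, 259, 261, 265, 321, 385, 515, 521, 577, 2053, 2305]), (4096, [71, 135, 195, 197, 263, 323, 325, 329, 387, 389, 449, 579, 585, 2309]), (65536, [199, 327, 391, 451, 453]), (1048576, [455])]),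
  (2, [(1, [2]), (16, [6, 18, 66, 130, 258, 514, 1026]), (256, [70, 82, 134, 146, 194, 262, 322, 386, 578, 1030, 1042, 1154]), (4096, [198, 210, 326, 390, 450, 1158, 1170]), (65536, [454])]),
  (4, [(1, [4]), (16, [36, 68, 132, 260, 1028, 2052]), (256, [164, 196, 292, 324, 388, 1156, 2084, 2308]), (4096, [420, 452, 2340])]),
  (8, [(1, [8]), (16, [72, 264, 520]), (256, [328, 584])]),
  (16, [(1, [16]), (16, [80, 144, 1040]), (256, [208, 1168])]),
  (32, [(1, [32]), (16, [160, 288, 2080]), (256, [416, 2336])]),
  (64, [(1, [64]), (16, [192, 320, 576]), (256, [448])]),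
  (128, [(1, [128]), (16, [384, 1152])]),
  (256, [(1, [256]), (16, [2304])]),
  (512, [(1, [512])]),
  (1024, [(1, [1024])]),
  (2048, [(1, [2048])])]

def encL : List ℕ → ℕ
  | [] => 0
  | a :: t => a + 16 * encL t

def conv (t : List (ℕ × List (ℕ × List ℕ))) : List (ℕ × List (ℕ × List ℕ)) :=
  t.map (fun p => (p.1, p.2.map (fun q => (16 ^ q.1, q.2))))

theorem tabs16_eq : tabs16 = conv tabs := by decide +kernel

theorem sumO_eq (L : List ℕ) (f : ℕ → ℕ) : sumO L f = (L.map f).sum := by
  induction L with
  | nil => rfl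
  | cons a L ih =>
    simp only [sumO, List.map_cons, List.sum_cons, ih]
    rfl

theorem sumP_eq (L : List (ℕ × List ℕ)) (f : ℕ → List ℕ → ℕ) :
    sumP L f = (L.map (fun p => f p.1 p.2)).sum := by
  induction L with
  | nil => rfl
  | cons a L ih =>
    obtain ⟨i, l⟩ := a
    simp only [sumP, List.map_cons, List.sum_cons, ih]
    rfl

theorem land15 (n : ℕ) : Nat.land n 15 = n % 16 := by
  change n &&& (2 ^ 4 - 1) = n % 2 ^ 4
  exact Nat.and_two_pow_sub_one_eq_mod n 4

theorem encL_get (ms : List ℕ) (h : ∀ a ∈ ms, a < 16) (i : ℕ) :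
    Nat.land (Nat.div (encL ms) (16 ^ i)) 15 = ms.getD i 0 := by
  rw [land15]
  change encL ms / 16 ^ i % 16 = _
  induction ms generalizing i with
  | nil => simp [encL]
  | cons a t ih =>
    have ha := h a List.mem_cons_self
    cases i with
    | zero =>
      simp only [encL, List.getD_cons_zero]
      omega
    | succ i =>
      simp only [encL, List.getD_cons_succ]
      rw [pow_succ', ← Nat.div_div_eq_div_mul]
      have : (a + 16 * encL t) / 16 = encL t := by omega
      rw [this]
      exact ih (fun x hx => h x (List.mem_cons_of_mem _ hx)) i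

theorem encL_set (ms : List ℕ) (i : ℕ) (h : 0 < ms.getD i 0) :
    encL (ms.set i (ms.getD i 0 - 1)) + 16 ^ i = encL ms := by
  induction ms generalizing i with
  | nil => simp at h
  | cons a t ih =>
    cases i with
    | zero =>
      simp only [List.getD_cons_zero] at h
      simp only [List.getD_cons_zero, List.set_cons_zero, encL, pow_zero]
      omega
    | succ i =>
      simp only [List.getD_cons_succ] at h
      simp only [List.getD_cons_succ, List.set_cons_succ, encL, pow_succ']
      have := ih i h
      omega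

theorem encL_zero (ms : List ℕ) : (ms.all (fun m => Nat.beq m 0)) = Nat.beq (encL ms) 0 := by
  induction ms with
  | nil => rfl
  | cons a t ih =>
    rw [List.all_cons, ih]
    simp only [encL]
    rw [Bool.eq_iff_iff, Bool.and_eq_true, Nat.beq_eq, Nat.beq_eq, Nat.beq_eq]
    omega

theorem cntN_eq (t : List (ℕ × List (ℕ × List ℕ))) (W : ℕ) (ms : List ℕ) (h : ∀ a ∈ ms, a < 16) :
    cntN (conv t) W (encL ms) = cnt t W ms := by
  induction t generalizing W ms with
  | nil =>
    simp only [conv, List.map_nil, cntN, cnt, encL_zero]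
  | cons p t ih =>
    obtain ⟨b, tv⟩ := p
    have hc : conv ((b, tv) :: t) = (b, tv.map (fun q => (16 ^ q.1, q.2))) :: conv t := rfl
    rw [hc]
    simp only [cntN, cnt]
    rw [ih W ms h, sumP_eq, List.map_map]
    congr 2
    apply List.map_congr_left
    intro q _
    simp only [Function.comp]
    rw [encL_get ms h]
    cases hb : Nat.beq (ms.getD q.1 0) 0 with
    | true => rfl
    | false =>
      rw [cond_false, cond_false, sumO_eq]
      have hpos : 0 < ms.getD q.1 0 := by
        rcases Nat.eq_zero_or_pos (ms.getD q.1 0) with h0 | h0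
        · rw [h0] at hb; simp at hb
        · exact h0
      have hsub : Nat.sub (encL ms) (16 ^ q.1) = encL (ms.set q.1 (ms.getD q.1 0 - 1)) := by
        have := encL_set ms q.1 hpos
        change encL ms - 16 ^ q.1 = _
        omega
      rw [show ∀ a b : ℕ, Nat.mul a b = a * b from fun _ _ => rfl]
      congr 2
      apply List.map_congr_left
      intro S _
      rw [force_eq, force_eq, hsub, ih]
      intro a ha
      rcases List.mem_or_eq_of_mem_set ha with h1 | h1
      · exact h a h1
      · rw [h1]
        have : ms.getD q.1 0 < 16 := by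
          by_cases hl : q.1 < ms.length
          · rw [List.getD_eq_getElem _ _ hl]
            exact h _ (List.getElem_mem hl)
          · rw [List.getD_eq_default _ _ (not_lt.1 hl)]
            omega
        omega

set_option maxRecDepth 100000 in
theorem cntN_true :
    (tabA.all (fun p => Nat.beq (cntN tabs16 4095 (encL p.1)) p.2)) = true := by decide +kernel

theorem tabA_small : ∀ p ∈ tabA, ∀ a ∈ p.1, a < 16 := by decide +kernel

theorem cnt_true : ∀ p ∈ tabA, cnt tabs 4095 p.1 = p.2 := by
  intro p hp
  have h := List.all_eq_true.1 cntN_true p hp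
  rw [tabs16_eq, cntN_eq _ _ _ (tabA_small p hp)] at h
  exact Nat.eq_of_beq_eq_true h

end Pool.Agent.Y363.SnpData
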