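import Pool.Agent.Y363.SnpSound2
import Pool.Agent.Y363.SnpCnt
import Pool.Agent.Y363.SnpChk

set_option autoImplicit false

namespace Pool.Agent.Y363.SnpData

open Finset Pool.Agent.Y363.SchurList Pool.Agent.Y363.Machine Pool.Agent.Y363.Schur

theorem toF_full : toF 4095 = univ := by decide +kernel

theorem st_empty : st ∅ = true := by
  rw [st_iff]
  intro u hu
  exact absurd hu (Finset.notMem_empty u)

theorem RV_filter (l : List ℕ) : RV cL l = RV cL (l.filter (fun a => a ≠ 0)) := by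
  unfold RV
  congr 1
  apply List.map_congr_left
  intro p hp
  rw [tr_filter l p.1 (cL_ok p hp).2.2]

theorem RV_sum_ne (l : List ℕ) (h : l.sum ≠ 12) : RV cL l = 0 := by
  unfold RV
  apply List.sum_eq_zero
  intro x hx
  rw [List.mem_map] at hx
  obtain ⟨p, hp, rfl⟩ := hx
  rw [tr_sum_ne l p.1 (by rw [(cL_ok p hp).2.1]; exact h), mul_zero]

theorem trace_eq (l : List ℕ) : trF st univ l = RV cL l := by
  rw [trF_filter st st_empty, RV_filter]
  have hpos : ∀ a ∈ l.filter (fun a => a ≠ 0), 0 < a := by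
    intro a ha
    rw [List.mem_filter] at ha
    have := ha.2
    simp only [decide_eq_true_eq] at this
    omega
  generalize l.filter (fun a => a ≠ 0) = l' at hpos
  by_cases hs : l'.sum = 12
  · have hl : ∀ a ∈ l', 0 < a ∧ a ≤ 12 := by
      intro a ha
      refine ⟨hpos a ha, ?_⟩
      rw [← hs]
      exact List.single_le_sum (fun x _ => Nat.zero_le x) a ha
    have hmem := chk_sound 13 12 le_rfl cL (List.replicate 12 0) cL_ok chk_true l' hpos hs
    have hcnt := cnt_true _ hmem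
    simp only at hcnt
    rw [← hcnt, ← toF_full, tabs_eq]
    symm
    apply cnt_sound 12 0 (by norm_num) 4095 (by norm_num)
    · intro i hi
      omega
    · exact hl
    · rw [length_msadd]
      simp
    · intro i hi
      rw [count_msadd l' hl (List.replicate 12 0) (by simp) i hi]
      rw [List.getD_eq_getElem _ _ (by simpa using hi), List.getElem_replicate, zero_add]
  · rw [RV_sum_ne l' hs, trF_sum_ne]
    rw [Finset.card_univ, Fintype.card_fin]
    exact hs

noncomputable def cF : List (List ℕ × ℕ) → (YoungDiagram →₀ ℕ)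
  | [] => 0
  | p :: t => Finsupp.single (yd p.1) p.2 + cF t

theorem cF_sum (L : List (List ℕ × ℕ)) (k : ℕ) :
    (cF L).sum (fun μ a => a • Sch k μ) = (L.map (fun p => p.2 • Sch k (yd p.1))).sum := by
  classical
  induction L with
  | nil => simp [cF]
  | cons p t ih =>
    simp only [cF, List.map_cons, List.sum_cons]
    rw [Finsupp.sum_add_index', ih, Finsupp.sum_single_index]
    · rw [zero_smul]
    · intro a; rw [zero_smul]
    · intro a b c; rw [add_smul]

theorem schur_expansion (k : ℕ) :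
    (∑ᶠ κ : {κ : Fin 12 → Fin k // ∀ u v, G.Adj u v → κ u ≠ κ v},
        ∏ v, (MvPolynomial.X ((κ.1 v : ℕ)) : MvPolynomial ℕ ℤ)) =
      (cF cL).sum (fun μ a => a • Sch k μ) := by
  rw [finsum_eq_CF, cF_sum, CF_eq_P G st st_iff 12 k univ (by simp)]
  have e : (fun l => (trF st univ l : ℤ)) = fun l => (cL.map (fun p => (p.2 : ℤ) * (tr l p.1 : ℤ))).sum := by
    funext l
    rw [trace_eq]
    unfold RV
    rw [Nat.cast_list_sum, List.map_map]
    have : (Nat.cast ∘ fun p : List ℕ × ℕ => p.2 * tr l p.1 : List ℕ × ℕ → ℤ)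
        = fun p => (p.2 : ℤ) * (tr l p.1 : ℤ) := by
      funext p
      simp
    rw [this]
  rw [e, P_list_sum]
  congr 1
  apply List.map_congr_left
  intro p hp
  obtain ⟨h1, h2, h3⟩ := cL_ok p hp
  rw [Sch_eq_P 12 k p.1 h3 (by omega), P_nsmul]

/-! ### failure of SNP -/

theorem coeff_poly (k : ℕ) (β : ℕ →₀ ℕ) :
    β ∈ (∑ᶠ κ : {κ : Fin 12 → Fin k // ∀ u v, G.Adj u v → κ u ≠ κ v},
        ∏ v, (MvPolynomial.X ((κ.1 v : ℕ)) : MvPolynomial ℕ ℤ)).support ↔
      ∃ κ : {κ : Fin 12 → Fin k // ∀ u v, G.Adj u v → κ u ≠ κ v},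
        ∑ v, Finsupp.single ((κ.1 v : ℕ)) 1 = β := by
  classical
  rw [finsum_eq_sum_of_fintype, MvPolynomial.mem_support_iff, MvPolynomial.coeff_sum]
  have e : ∀ κ : {κ : Fin 12 → Fin k // ∀ u v, G.Adj u v → κ u ≠ κ v},
      MvPolynomial.coeff β (∏ v, (MvPolynomial.X ((κ.1 v : ℕ)) : MvPolynomial ℕ ℤ))
        = if ∑ v, Finsupp.single ((κ.1 v : ℕ)) 1 = β then 1 else 0 := by
    intro κ
    have : (∏ v, (MvPolynomial.X ((κ.1 v : ℕ)) : MvPolynomial ℕ ℤ))
        = MvPolynomial.monomial (∑ v, Finsupp.single ((κ.1 v : ℕ)) 1) 1 := by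
      rw [MvPolynomial.monomial_sum_one]
      rfl
    rw [this, MvPolynomial.coeff_monomial]
  simp only [e]
  rw [Finset.sum_boole]
  constructor
  · intro h
    have hne : (univ.filter (fun κ : {κ : Fin 12 → Fin k // ∀ u v, G.Adj u v → κ u ≠ κ v} =>
        ∑ v, Finsupp.single ((κ.1 v : ℕ)) 1 = β)).card ≠ 0 := by
      intro h0
      apply h
      rw [h0]
      rfl
    obtain ⟨κ, hκ⟩ := Finset.card_ne_zero.1 hne
    exact ⟨κ, (Finset.mem_filter.1 hκ).2⟩
  · rintro ⟨κ, hκ⟩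
    have : 0 < (univ.filter (fun κ : {κ : Fin 12 → Fin k // ∀ u v, G.Adj u v → κ u ≠ κ v} =>
        ∑ v, Finsupp.single ((κ.1 v : ℕ)) 1 = β)).card :=
      Finset.card_pos.2 ⟨κ, Finset.mem_filter.2 ⟨Finset.mem_univ _, hκ⟩⟩
    intro h0
    have h1 : ((univ.filter (fun κ : {κ : Fin 12 → Fin k // ∀ u v, G.Adj u v → κ u ≠ κ v} =>
        ∑ v, Finsupp.single ((κ.1 v : ℕ)) 1 = β)).card : ℤ) = 0 := h0
    omega

theorem content_apply (k : ℕ) (κ : Fin 12 → Fin k) (i : ℕ) :
    (∑ v, Finsupp.single ((κ v : ℕ)) 1 : ℕ →₀ ℕ) i = (univ.filter (fun v => (κ v : ℕ) = i)).card := by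
  classical
  rw [Finsupp.finsetSum_apply, Finset.card_filter]
  apply Finset.sum_congr rfl
  intro v _
  rw [Finsupp.single_apply]

def k1 : Fin 12 → Fin 4 := ![0, 0, 0, 1, 2, 3, 0, 0, 0, 1, 2, 3]
def k2 : Fin 12 → Fin 4 := ![0, 1, 2, 0, 1, 2, 0, 1, 2, 0, 1, 2]

theorem k1_proper : ∀ u v, G.Adj u v → k1 u ≠ k1 v := by
  have : ∀ u v, GB u v = true → k1 u ≠ k1 v := by decide +kernel
  exact this

theorem k2_proper : ∀ u v, G.Adj u v → k2 u ≠ k2 v := by
  have : ∀ u v, GB u v = true → k2 u ≠ k2 v := by decide +kernel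
  exact this

noncomputable def α : ℕ →₀ ℕ :=
  Finsupp.single 0 5 + Finsupp.single 1 3 + Finsupp.single 2 3 + Finsupp.single 3 1

theorem α_mid (i : ℕ) : 2 * α i = (univ.filter (fun v => (k1 v : ℕ) = i)).card
    + (univ.filter (fun v => (k2 v : ℕ) = i)).card := by
  by_cases hi : i < 4
  · have h4 : ∀ j : Fin 4, (univ.filter (fun v => (k1 v : ℕ) = j.1)).card
      + (univ.filter (fun v => (k2 v : ℕ) = j.1)).card = 2 * (![5, 3, 3, 1] j) := by
      decide +kernel
    rw [h4 ⟨i, hi⟩]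
    congr 1
    simp only [α, Finsupp.add_apply, Finsupp.single_apply]
    interval_cases i <;> rfl
  · have h1 : univ.filter (fun v => (k1 v : ℕ) = i) = ∅ := by
      apply Finset.filter_eq_empty_iff.2
      intro v _ h
      have := (k1 v).2
      omega
    have h2 : univ.filter (fun v => (k2 v : ℕ) = i) = ∅ := by
      apply Finset.filter_eq_empty_iff.2
      intro v _ h
      have := (k2 v).2
      omega
    rw [h1, h2]
    simp only [α, Finsupp.add_apply, Finsupp.single_apply, Finset.card_empty]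
    rw [if_neg (by omega), if_neg (by omega), if_neg (by omega), if_neg (by omega)]
    rfl

theorem no_5331 : ∀ A ∈ stabL.filter (fun S => Nat.beq (popc S) 5),
    ∀ B ∈ stabL.filter (fun S => Nat.beq (popc S) 3), Nat.land A B = 0 →
    ∀ C ∈ stabL.filter (fun S => Nat.beq (popc S) 3), Nat.land A C = 0 → Nat.land B C ≠ 0 := by
  decide +kernel

theorem disj_land {A B : ℕ} (hA : A < 4096) (h : Disjoint (toF A) (toF B)) : Nat.land A B = 0 := by
  rw [land_eq_zero_iff]
  rintro j ⟨h1, h2⟩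
  by_cases hj : j < 12
  · exact (Finset.disjoint_left.1 h) ((mem_toF A ⟨j, hj⟩).2 h1) ((mem_toF B ⟨j, hj⟩).2 h2)
  · rw [testBit_high hA (not_lt.1 hj)] at h1
    simp at h1

theorem α_not : ¬ ∃ κ : {κ : Fin 12 → Fin 4 // ∀ u v, G.Adj u v → κ u ≠ κ v},
        ∑ v, Finsupp.single ((κ.1 v : ℕ)) 1 = α := by
  classical
  rintro ⟨⟨κ, hκ⟩, h⟩
  simp only at h
  have hcard : ∀ i, (univ.filter (fun v => (κ v : ℕ) = i)).card = α i := by
    intro i
    rw [← content_apply, h]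
  have hst : ∀ i, st (univ.filter (fun v => (κ v : ℕ) = i)) = true := by
    intro i
    rw [st_iff]
    intro u hu v hv huv
    rw [Finset.mem_filter] at hu hv
    exact hκ u v huv (Fin.ext (hu.2.trans hv.2.symm))
  have hmask : ∀ i, ∃ A, A < 4096 ∧ toF A = univ.filter (fun v => (κ v : ℕ) = i) := fun i => toF_surj _
  have hdisj : ∀ i j, i ≠ j → Disjoint (univ.filter (fun v => (κ v : ℕ) = i))
      (univ.filter (fun v => (κ v : ℕ) = j)) := by
    intro i j hij
    rw [Finset.disjoint_left]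
    intro v h1 h2
    rw [Finset.mem_filter] at h1 h2
    exact hij (h1.2.symm.trans h2.2)
  obtain ⟨A, hA, hA'⟩ := hmask 0
  obtain ⟨B, hB, hB'⟩ := hmask 1
  obtain ⟨C, hC, hC'⟩ := hmask 2
  have a0 : α 0 = 5 := by simp [α]
  have a1 : α 1 = 3 := by simp [α]
  have a2 : α 2 = 3 := by simp [α]
  have mem : ∀ (S i c : ℕ), S < 4096 → toF S = univ.filter (fun v => (κ v : ℕ) = i) → α i = c →
      S ∈ stabL.filter (fun S => Nat.beq (popc S) c) := by
    intro S i c hS hS' hc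
    rw [List.mem_filter, mem_stabL]
    refine ⟨⟨hS, by rw [hS']; exact hst i⟩, ?_⟩
    rw [popc_eq, hS', hcard, hc]
    simp
  exact no_5331 A (mem A 0 5 hA hA' a0) B (mem B 1 3 hB hB' a1)
    (disj_land hA (by rw [hA', hB']; exact hdisj 0 1 (by norm_num)))
    C (mem C 2 3 hC hC' a2)
    (disj_land hA (by rw [hA', hC']; exact hdisj 0 2 (by norm_num)))
    (disj_land hB (by rw [hB', hC']; exact hdisj 1 2 (by norm_num)))

theorem main :
    ¬ (∀ (V : Type) [Fintype V] (G : SimpleGraph V),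
      (∀ k : ℕ, ∃ c : YoungDiagram →₀ ℕ,
        (∑ᶠ κ : {κ : V → Fin k // ∀ u v, G.Adj u v → κ u ≠ κ v},
            ∏ v, (MvPolynomial.X ((κ.1 v : ℕ)) : MvPolynomial ℕ ℤ)) =
          c.sum (fun μ a => a • ∑ᶠ T : {T : SemistandardYoungTableau μ //
              ∀ p ∈ μ.cells, T p.1 p.2 < k},
            ∏ p ∈ μ.cells, (MvPolynomial.X (T.1 p.1 p.2) : MvPolynomial ℕ ℤ))) →
      ∀ k : ℕ, ∀ α : ℕ →₀ ℕ,
        (fun i : ℕ => (α i : ℝ)) ∈ convexHull ℝ
          ((fun β : ℕ →₀ ℕ => (fun i : ℕ => (β i : ℝ))) ''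
            ((∑ᶠ κ : {κ : V → Fin k // ∀ u v, G.Adj u v → κ u ≠ κ v},
              ∏ v, (MvPolynomial.X ((κ.1 v : ℕ)) : MvPolynomial ℕ ℤ)).support : Set (ℕ →₀ ℕ))) →
        α ∈ (∑ᶠ κ : {κ : V → Fin k // ∀ u v, G.Adj u v → κ u ≠ κ v},
              ∏ v, (MvPolynomial.X ((κ.1 v : ℕ)) : MvPolynomial ℕ ℤ)).support) := by
  intro H
  have h1 := H (Fin 12) G (fun k => ⟨cF cL, schur_expansion k⟩) 4 α ?_
  · exact α_not ((coeff_poly 4 α).1 h1)
  · have m1 := (coeff_poly 4 _).2 ⟨⟨k1, k1_proper⟩, rfl⟩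
    have m2 := (coeff_poly 4 _).2 ⟨⟨k2, k2_proper⟩, rfl⟩
    have c1 := subset_convexHull ℝ _ (Set.mem_image_of_mem
      (fun β : ℕ →₀ ℕ => (fun i : ℕ => (β i : ℝ))) (Finset.mem_coe.2 m1))
    have c2 := subset_convexHull ℝ _ (Set.mem_image_of_mem
      (fun β : ℕ →₀ ℕ => (fun i : ℕ => (β i : ℝ))) (Finset.mem_coe.2 m2))
    have c3 := convex_convexHull ℝ _ c1 c2 (show (0:ℝ) ≤ 1/2 by norm_num)
      (show (0:ℝ) ≤ 1/2 by norm_num) (by norm_num)
    convert c3 using 1
    funext i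
    simp only [Pi.add_apply, Pi.smul_apply, smul_eq_mul]
    have := α_mid i
    rw [content_apply, content_apply]
    have h2 : (2:ℝ) * (α i : ℝ) = ((univ.filter (fun v => (k1 v : ℕ) = i)).card : ℝ)
      + ((univ.filter (fun v => (k2 v : ℕ) = i)).card : ℝ) := by
      exact_mod_cast this
    linarith

end Pool.Agent.Y363.SnpData
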