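import Pool.Agent.Y363.EquivH

set_option autoImplicit false
open scoped Pointwise

/-! The octahedron `{x ∈ [0,1]^3 : 1 ≤ x₀+x₁+x₂ ≤ 2}` and the cyclic group of order three. -/

namespace Pool.Agent.Y363.EquivH

open Finset

/-- the six vertices -/
def vv : Fin 6 → (Fin 3 → ℤ) :=
  ![![1, 0, 0], ![0, 1, 0], ![0, 0, 1], ![0, 1, 1], ![1, 0, 1], ![1, 1, 0]]

/-- the vertex set -/
def V : Finset (Fin 3 → ℤ) := Finset.univ.image vv

/-- the polytope -/
def P : Set (Fin 3 → ℝ) :=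
  convexHull ℝ ((fun v : Fin 3 → ℤ => fun j => ((v j : ℤ) : ℝ)) '' (V : Set (Fin 3 → ℤ)))

def toR (v : Fin 3 → ℤ) : Fin 3 → ℝ := fun j => ((v j : ℤ) : ℝ)

theorem vv_mem (i : Fin 6) : toR (vv i) ∈ P := by
  apply subset_convexHull
  exact ⟨vv i, by simp [V], rfl⟩

theorem P_eq : P = {x | (∀ i, 0 ≤ x i ∧ x i ≤ 1) ∧ 1 ≤ x 0 + x 1 + x 2 ∧ x 0 + x 1 + x 2 ≤ 2} := by
  apply Set.Subset.antisymm
  · apply convexHull_min
    · rintro _ ⟨v, hv, rfl⟩
      have hv' : v ∈ V := hv
      rw [V, mem_image] at hv'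
      obtain ⟨i, -, rfl⟩ := hv'
      have key : ∀ i : Fin 6, (∀ j, 0 ≤ vv i j ∧ vv i j ≤ 1) ∧ 1 ≤ vv i 0 + vv i 1 + vv i 2 ∧
          vv i 0 + vv i 1 + vv i 2 ≤ 2 := by decide
      obtain ⟨k1, k2, k3⟩ := key i
      refine ⟨fun j => ⟨?_, ?_⟩, ?_, ?_⟩
      · show (0 : ℝ) ≤ ((vv i j : ℤ) : ℝ)
        exact_mod_cast (k1 j).1
      · show ((vv i j : ℤ) : ℝ) ≤ 1
        exact_mod_cast (k1 j).2
      · show (1 : ℝ) ≤ ((vv i 0 : ℤ) : ℝ) + ((vv i 1 : ℤ) : ℝ) + ((vv i 2 : ℤ) : ℝ)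
        exact_mod_cast k2
      · show ((vv i 0 : ℤ) : ℝ) + ((vv i 1 : ℤ) : ℝ) + ((vv i 2 : ℤ) : ℝ) ≤ 2
        exact_mod_cast k3
    · rintro x ⟨hx, hx1, hx2⟩ y ⟨hy, hy1, hy2⟩ a b ha hb hab
      refine ⟨fun i => ⟨?_, ?_⟩, ?_, ?_⟩
      · have := (hx i).1
        have := (hy i).1
        simp only [Pi.add_apply, Pi.smul_apply, smul_eq_mul]
        positivity
      · have := (hx i).2
        have := (hy i).2
        simp only [Pi.add_apply, Pi.smul_apply, smul_eq_mul]
        nlinarith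
      · simp only [Pi.add_apply, Pi.smul_apply, smul_eq_mul]
        nlinarith
      · simp only [Pi.add_apply, Pi.smul_apply, smul_eq_mul]
        nlinarith
  · rintro x ⟨hx, h1, h2⟩
    set B : ℝ := x 0 + x 1 + x 2 - 1 with hB
    -- positive and negative parts
    obtain ⟨p0, q0, e0, hp0, hq0, r0⟩ : ∃ p q : ℝ, x 0 - B = p - q ∧ 0 ≤ p ∧ 0 ≤ q ∧
        (p = 0 ∨ q = 0) := by
      rcases le_total 0 (x 0 - B) with h | h
      · exact ⟨x 0 - B, 0, by ring, h, le_rfl, Or.inr rfl⟩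
      · exact ⟨0, -(x 0 - B), by ring, le_rfl, by linarith, Or.inl rfl⟩
    obtain ⟨p1, q1, e1, hp1, hq1, r1⟩ : ∃ p q : ℝ, x 1 - B = p - q ∧ 0 ≤ p ∧ 0 ≤ q ∧
        (p = 0 ∨ q = 0) := by
      rcases le_total 0 (x 1 - B) with h | h
      · exact ⟨x 1 - B, 0, by ring, h, le_rfl, Or.inr rfl⟩
      · exact ⟨0, -(x 1 - B), by ring, le_rfl, by linarith, Or.inl rfl⟩
    obtain ⟨p2, q2, e2, hp2, hq2, r2⟩ : ∃ p q : ℝ, x 2 - B = p - q ∧ 0 ≤ p ∧ 0 ≤ q ∧
        (p = 0 ∨ q = 0) := by
      rcases le_total 0 (x 2 - B) with h | h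
      · exact ⟨x 2 - B, 0, by ring, h, le_rfl, Or.inr rfl⟩
      · exact ⟨0, -(x 2 - B), by ring, le_rfl, by linarith, Or.inl rfl⟩
    have hx0 := hx 0
    have hx1 := hx 1
    have hx2 := hx 2
    have ht : 0 ≤ B - (q0 + q1 + q2) := by
      rcases r0 with r0 | r0 <;> rcases r1 with r1 | r1 <;> rcases r2 with r2 | r2 <;>
        linarith
    set t := B - (q0 + q1 + q2) with htd
    let wt : Fin 6 → ℝ := ![p0 + t, p1, p2, q0 + t, q1, q2]
    have hsum : ∑ i, wt i = 1 := by
      simp [wt, Fin.sum_univ_succ]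
      linarith
    have hxe : x = ∑ i, wt i • toR (vv i) := by
      funext j
      simp only [Fin.sum_univ_succ, Finset.sum_apply, Pi.smul_apply, smul_eq_mul]
      fin_cases j
      · simp [wt, vv, toR]
        linarith
      · simp [wt, vv, toR]
        linarith
      · simp [wt, vv, toR]
        linarith
    rw [hxe]
    apply (convex_convexHull ℝ _).sum_mem
    · intro i _
      fin_cases i <;> simp [wt] <;> linarith
    · exact hsum
    · intro i _
      exact vv_mem i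

theorem mem_smul (m : ℕ) (x : Fin 3 → ℤ) :
    (fun j => ((x j : ℤ) : ℝ)) ∈ (m : ℝ) • P ↔ x ∈ pts m := by
  rcases Nat.eq_zero_or_pos m with rfl | hm
  · have hne : P.Nonempty := ⟨_, vv_mem 0⟩
    rw [Nat.cast_zero, Set.zero_smul_set hne]
    constructor
    · intro h
      have h0 : ∀ j, ((x j : ℤ) : ℝ) = 0 := fun j => congrFun h j
      have h1 : ∀ j, x j = 0 := fun j => by exact_mod_cast h0 j
      refine ⟨fun i => ?_, ?_, ?_⟩ <;> simp [h1]
    · rintro ⟨h, _, _⟩
      show (fun j => ((x j : ℤ) : ℝ)) = 0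
      funext j
      have := h j
      have : x j = 0 := by
        push_cast at this
        omega
      simp [this]
  · have hm' : (0 : ℝ) < m := by exact_mod_cast hm
    rw [Set.mem_smul_set_iff_inv_smul_mem₀ hm'.ne', P_eq]
    have key : ∀ a b : ℝ, (a ≤ (m : ℝ)⁻¹ * b ↔ a * m ≤ b) ∧ ((m : ℝ)⁻¹ * b ≤ a ↔ b ≤ a * m) := by
      intro a b
      constructor
      · rw [inv_mul_eq_div, le_div_iff₀ hm']
      · rw [inv_mul_eq_div, div_le_iff₀ hm']
    constructor
    · rintro ⟨h, h1, h2⟩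
      simp only [Pi.smul_apply, smul_eq_mul] at h h1 h2
      rw [← mul_add, ← mul_add] at h1 h2
      rw [(key _ _).1] at h1
      rw [(key _ _).2] at h2
      refine ⟨fun i => ⟨?_, ?_⟩, ?_, ?_⟩
      · have := (key _ _).1.1 (h i).1
        rw [zero_mul] at this
        exact_mod_cast this
      · have := (key _ _).2.1 (h i).2
        rw [one_mul] at this
        exact_mod_cast this
      · rw [one_mul] at h1
        exact_mod_cast h1
      · exact_mod_cast h2
    · rintro ⟨h, h1, h2⟩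
      refine ⟨fun i => ⟨?_, ?_⟩, ?_, ?_⟩
      · simp only [Pi.smul_apply, smul_eq_mul]
        rw [(key _ _).1, zero_mul]
        exact_mod_cast (h i).1
      · simp only [Pi.smul_apply, smul_eq_mul]
        rw [(key _ _).2, one_mul]
        exact_mod_cast (h i).2
      · simp only [Pi.smul_apply, smul_eq_mul]
        rw [← mul_add, ← mul_add, (key _ _).1, one_mul]
        exact_mod_cast h1
      · simp only [Pi.smul_apply, smul_eq_mul]
        rw [← mul_add, ← mul_add, (key _ _).2]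
        exact_mod_cast h2

theorem span_top (x : Fin 3 → ℝ) : x ∈ vectorSpan ℝ P := by
  have hd : ∀ i j : Fin 6, toR (vv i) - toR (vv j) ∈ vectorSpan ℝ P := fun i j =>
    vsub_mem_vectorSpan ℝ (vv_mem i) (vv_mem j)
  have hx : x = x 0 • (toR (vv 5) - toR (vv 1)) + x 1 • (toR (vv 5) - toR (vv 0))
      + x 2 • (toR (vv 4) - toR (vv 0)) := by
    funext j
    fin_cases j <;> simp [vv, toR]
  rw [hx]
  exact Submodule.add_mem _ (Submodule.add_mem _ (Submodule.smul_mem _ _ (hd _ _))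
    (Submodule.smul_mem _ _ (hd _ _))) (Submodule.smul_mem _ _ (hd _ _))

/-! ### power series -/

open PowerSeries in
theorem mul_one_sub (f : ℕ → ℤ) :
    (PowerSeries.mk f) * (1 - PowerSeries.X) =
      PowerSeries.mk (fun n => f n - if n = 0 then 0 else f (n - 1)) := by
  ext n
  rw [mul_sub, mul_one, map_sub, PowerSeries.coeff_mk, PowerSeries.coeff_mk]
  cases n with
  | zero => simp
  | succ n => simp [PowerSeries.coeff_succ_mul_X]

theorem mul_one_sub_cube (f : ℕ → ℤ) :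
    (PowerSeries.mk f) * (1 - PowerSeries.X ^ 3) =
      PowerSeries.mk (fun n => f n - if n < 3 then 0 else f (n - 3)) := by
  ext n
  rw [mul_sub, mul_one, map_sub, PowerSeries.coeff_mk, PowerSeries.coeff_mk,
    PowerSeries.coeff_mul_X_pow']
  by_cases h : n < 3
  · rw [if_neg (by omega), if_pos h]
  · rw [if_pos (by omega), if_neg h, PowerSeries.coeff_mk]

/-- the series for the identity -/
theorem series_one :
    PowerSeries.mk (fun m : ℕ => ((pts m).ncard : ℤ)) * (1 - PowerSeries.X) ^ 4 =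
      PowerSeries.mk (fun n => if n = 0 then 1 else if n = 1 then 2 else if n = 2 then 1 else 0) := by
  have e : (1 - PowerSeries.X : PowerSeries ℤ) ^ 4 =
    (1 - PowerSeries.X) * (1 - PowerSeries.X) * (1 - PowerSeries.X) * (1 - PowerSeries.X) := by ring
  rw [e, ← mul_assoc, ← mul_assoc, ← mul_assoc, mul_one_sub]
  have h1 : (fun n : ℕ => ((pts n).ncard : ℤ) - if n = 0 then 0 else ((pts (n - 1)).ncard : ℤ)) =
      fun n : ℕ => 2 * (n : ℤ) ^ 2 + 2 * n + 1 := by
    funext n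
    cases n with
    | zero =>
      have := ncard_pts 0
      simp at this ⊢
      omega
    | succ n =>
      have h1 := ncard_pts (n + 1)
      have h2 := ncard_pts n
      rw [if_neg (Nat.succ_ne_zero n), Nat.add_sub_cancel]
      have h3 : (3 : ℤ) * (((pts (n + 1)).ncard : ℤ) - ((pts n).ncard : ℤ)) =
          3 * (2 * ((n + 1 : ℕ) : ℤ) ^ 2 + 2 * ((n + 1 : ℕ) : ℤ) + 1) := by
        rw [mul_sub, h1, h2]
        push_cast
        ring
      exact mul_left_cancel₀ (by norm_num) h3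
  rw [h1, mul_one_sub]
  have h2 : (fun n : ℕ => (2 * (n : ℤ) ^ 2 + 2 * n + 1) -
      if n = 0 then 0 else (2 * ((n - 1 : ℕ) : ℤ) ^ 2 + 2 * ((n - 1 : ℕ) : ℤ) + 1)) =
      fun n : ℕ => 4 * (n : ℤ) + if n = 0 then 1 else 0 := by
    funext n
    cases n with
    | zero => simp
    | succ n =>
      rw [if_neg (Nat.succ_ne_zero n), if_neg (Nat.succ_ne_zero n), Nat.add_sub_cancel]
      push_cast
      ring
  rw [h2, mul_one_sub, mul_one_sub]
  congr 1
  funext n
  rcases n with _ | _ | _ | n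
  · simp
  · simp
  · simp
  · simp
    ring

/-- fixed points of a nontrivial element -/
def fix (m : ℕ) : Set (Fin 3 → ℤ) := {x | x ∈ pts m ∧ x 0 = x 1 ∧ x 1 = x 2}

theorem ncard_fix (m : ℕ) : ((fix m).ncard : ℤ) = 2 * (m : ℤ) / 3 - (m + 2) / 3 + 1 := by
  have : fix m = (fun a : ℕ => (fun _ : Fin 3 => (a : ℤ))) ''
      (Finset.Icc ((m + 2) / 3) (2 * m / 3) : Set ℕ) := by
    ext x
    constructor
    · rintro ⟨⟨h, h1, h2⟩, h3, h4⟩
      have e0 := h 0
      refine ⟨(x 0).toNat, ?_, ?_⟩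
      · simp only [Finset.coe_Icc, Set.mem_Icc]
        omega
      · funext i
        have : ((x 0).toNat : ℤ) = x 0 := Int.toNat_of_nonneg e0.1
        show ((x 0).toNat : ℤ) = x i
        rw [this]
        fin_cases i
        · rfl
        · exact h3
        · exact h3.trans h4
    · rintro ⟨a, ha, rfl⟩
      simp only [Finset.coe_Icc, Set.mem_Icc] at ha
      refine ⟨⟨fun i => ?_, ?_, ?_⟩, rfl, rfl⟩
      · simp only
        omega
      · simp only
        omega
      · simp only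
        omega
  rw [this, Set.ncard_image_of_injective, Set.ncard_coe_finset, Nat.card_Icc]
  · have h : (m + 2) / 3 ≤ 2 * m / 3 + 1 := by omega
    rw [Nat.cast_sub h]
    push_cast
    ring
  · intro a b h
    have := congrFun h 0
    simpa using this

/-- the series for a nontrivial element -/
theorem series_ne :
    PowerSeries.mk (fun m : ℕ => ((fix m).ncard : ℤ)) * (1 - PowerSeries.X) *
      (1 - PowerSeries.X ^ 3) =
      PowerSeries.mk (fun n => if n = 0 then 1 else if n = 1 then -1 else if n = 2 then 1 else 0) := by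
  rw [mul_one_sub, mul_one_sub_cube]
  congr 1
  funext n
  simp only [ncard_fix]
  rcases n with _ | _ | _ | _ | n
  · simp
  · simp
  · simp
  · simp
  · have h3 : ¬ (n + 1 + 1 + 1 + 1 < 3) := by omega
    have h4 : n + 1 + 1 + 1 + 1 - 1 = n + 3 := by omega
    have h5 : n + 1 + 1 + 1 + 1 - 3 = n + 1 := by omega
    have h6 : n + 1 - 1 = n := by omega
    have h7 : ¬ (n + 1 + 1 + 1 + 1 = 0) := by omega
    have h8 : ¬ (n + 1 = 0) := by omega
    have h9 : ¬ (n + 1 + 1 + 1 + 1 = 1) := by omega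
    have h10 : ¬ (n + 1 + 1 + 1 + 1 = 2) := by omega
    simp only [h3, h4, h5, h6, h7, h8, h9, h10, if_false]
    push_cast
    obtain ⟨k, hk⟩ : ∃ k, n = 3 * k ∨ n = 3 * k + 1 ∨ n = 3 * k + 2 := ⟨n / 3, by omega⟩
    rcases hk with rfl | rfl | rfl <;> push_cast <;> omega

end Pool.Agent.Y363.EquivH
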