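import Mathlib

set_option autoImplicit false

/-! Counting lattice points of dilates of the octahedron `{x ∈ [0,1]^3 : 1 ≤ x₀+x₁+x₂ ≤ 2}`. -/

namespace Pool.Agent.Y363.EquivH

open Finset

/-- lattice points of `m P` -/
def pts (m : ℕ) : Set (Fin 3 → ℤ) :=
  {x | (∀ i, 0 ≤ x i ∧ x i ≤ m) ∧ (m : ℤ) ≤ x 0 + x 1 + x 2 ∧ x 0 + x 1 + x 2 ≤ 2 * m}

def w (m s : ℕ) : ℕ := if s ≤ m then s + 1 else 2 * m + 1 - s

theorem inner (m a b : ℕ) (ha : a ≤ m) (hb : b ≤ m) :
    ((range (m + 1)).filter (fun c => m ≤ a + (b + c) ∧ a + (b + c) ≤ 2 * m)).card = w m (a + b) := by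
  have : (range (m + 1)).filter (fun c => m ≤ a + (b + c) ∧ a + (b + c) ≤ 2 * m) =
      Icc (m - (a + b)) (min m (2 * m - (a + b))) := by
    ext c
    simp only [mem_filter, mem_range, mem_Icc]
    omega
  rw [this, Nat.card_Icc, w]
  split_ifs with h <;> omega

theorem sum1 (m a : ℕ) (k : ℕ) (hk : k + a ≤ m + 1) :
    2 * ∑ b ∈ range k, (w m (a + b) : ℤ) = k * (2 * a + k + 1) := by
  induction k with
  | zero => simp
  | succ k ih =>
    rw [sum_range_succ, mul_add, ih (by omega), w, if_pos (by omega)]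
    push_cast
    ring

theorem sum2 (m a : ℕ) (ha : a ≤ m) (j : ℕ) (hj : j ≤ a) :
    2 * ∑ b ∈ range (m + 1 - a + j), (w m (a + b) : ℤ) =
      (m + 1 - a) * (m + a + 2) + j * (2 * m - j + 1) := by
  induction j with
  | zero =>
    rw [add_zero, sum1 m a _ (by omega), Nat.cast_sub (by omega)]
    push_cast
    ring
  | succ j ih =>
    rw [← add_assoc, sum_range_succ, mul_add, ih (by omega), w, if_neg (by omega)]
    have : a + (m + 1 - a + j) = m + 1 + j := by omega
    rw [this]
    have h2 : ((2 * m + 1 - (m + 1 + j) : ℕ) : ℤ) = m - j := by omega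
    rw [h2]
    push_cast
    ring

theorem sum3 (m a : ℕ) (ha : a ≤ m) :
    2 * ∑ b ∈ range (m + 1), (w m (a + b) : ℤ) = (m + 1) * (m + 2) + 2 * (a * (m - a)) := by
  have := sum2 m a ha a le_rfl
  rw [show m + 1 - a + a = m + 1 by omega] at this
  rw [this]
  ring

theorem sum4 (m k : ℕ) :
    6 * ∑ a ∈ range k, ((a : ℤ) * (m - a)) = k * (k - 1) * (3 * m - 2 * k + 1) := by
  induction k with
  | zero => simp
  | succ k ih =>
    rw [sum_range_succ, mul_add, ih]
    push_cast
    ring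

/-- number of lattice points -/
theorem ncard_pts (m : ℕ) : 3 * ((pts m).ncard : ℤ) = (m + 1) * (2 * m ^ 2 + 4 * m + 3) := by
  classical
  let S : Finset (ℕ × ℕ × ℕ) := ((range (m + 1)) ×ˢ (range (m + 1)) ×ˢ (range (m + 1))).filter
    (fun p => m ≤ p.1 + (p.2.1 + p.2.2) ∧ p.1 + (p.2.1 + p.2.2) ≤ 2 * m)
  let f : ℕ × ℕ × ℕ → (Fin 3 → ℤ) := fun p => ![(p.1 : ℤ), p.2.1, p.2.2]
  have hf : Function.Injective f := by
    rintro ⟨a, b, c⟩ ⟨a', b', c'⟩ h
    have h0 := congrFun h 0
    have h1 := congrFun h 1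
    have h2 := congrFun h 2
    simp [f] at h0 h1 h2
    simp [h0, h1, h2]
  have himg : pts m = f '' (S : Set (ℕ × ℕ × ℕ)) := by
    ext x
    constructor
    · rintro ⟨h, h1, h2⟩
      refine ⟨((x 0).toNat, (x 1).toNat, (x 2).toNat), ?_, ?_⟩
      · have e0 := h 0
        have e1 := h 1
        have e2 := h 2
        simp only [S, coe_filter, mem_product, mem_range, Set.mem_ofPred_eq]
        omega
      · funext i
        have e := h i
        fin_cases i
        · show ((x 0).toNat : ℤ) = x 0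
          exact Int.toNat_of_nonneg e.1
        · show ((x 1).toNat : ℤ) = x 1
          exact Int.toNat_of_nonneg e.1
        · show ((x 2).toNat : ℤ) = x 2
          exact Int.toNat_of_nonneg e.1
    · rintro ⟨⟨a, b, c⟩, h, rfl⟩
      simp only [S, coe_filter, mem_product, mem_range, Set.mem_ofPred_eq] at h
      refine ⟨?_, ?_, ?_⟩
      · intro i
        fin_cases i <;> simp [f] <;> omega
      · simp [f]; omega
      · simp [f]; omega
  rw [himg, Set.ncard_image_of_injective _ hf, Set.ncard_coe_finset]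
  have hc : S.card = ∑ a ∈ range (m + 1), ∑ b ∈ range (m + 1), w m (a + b) := by
    rw [card_filter, sum_product]
    refine sum_congr rfl fun a ha => ?_
    rw [sum_product]
    refine sum_congr rfl fun b hb => ?_
    rw [← card_filter]
    rw [mem_range] at ha hb
    exact inner m a b (by omega) (by omega)
  rw [hc]
  have h6 : 6 * ((∑ a ∈ range (m + 1), ∑ b ∈ range (m + 1), w m (a + b) : ℕ) : ℤ) =
      3 * ((m + 1) * ((m + 1) * (m + 2))) + 6 * ∑ a ∈ range (m + 1), ((a : ℤ) * (m - a)) := by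
    push_cast
    rw [mul_sum, mul_sum]
    have : ∀ a ∈ range (m + 1), 6 * ∑ b ∈ range (m + 1), (w m (a + b) : ℤ) =
        3 * ((m + 1) * (m + 2)) + 6 * ((a : ℤ) * (m - a)) := by
      intro a ha
      rw [mem_range] at ha
      have := sum3 m a (by omega)
      linear_combination 3 * this
    rw [sum_congr rfl this, sum_add_distrib, sum_const, card_range]
    push_cast
    ring
  have h4 := sum4 m (m + 1)
  rw [h4] at h6
  push_cast at h6 ⊢
  have h7 : 2 * (3 * ∑ x ∈ range (m + 1), ∑ y ∈ range (m + 1), (w m (x + y) : ℤ)) =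
      2 * (((m : ℤ) + 1) * (2 * (m : ℤ) ^ 2 + 4 * m + 3)) := by
    linear_combination h6
  exact mul_left_cancel₀ two_ne_zero h7

end Pool.Agent.Y363.EquivH
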