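import Mathlib

set_option autoImplicit false

namespace Pool.Agent.Y363.Machine

open Finset MvPolynomial

/-- polynomial in `x_0, …, x_{k-1}` reconstructed from a trace function. -/
noncomputable def P (N : ℕ) : ℕ → (List ℕ → ℤ) → MvPolynomial ℕ ℤ
  | 0, t => C (t [])
  | k+1, t => ∑ j ∈ range (N+1), X k ^ j * P N k (fun l => t (j :: l))

theorem P_zero_fun (N k : ℕ) : P N k (fun _ => 0) = 0 := by
  induction k with
  | zero => simp [P]
  | succ k ih => simp [P, ih]

theorem P_add (N k : ℕ) (s t : List ℕ → ℤ) :
    P N k (fun l => s l + t l) = P N k s + P N k t := by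
  induction k generalizing s t with
  | zero => simp [P]
  | succ k ih =>
    simp only [P]
    rw [← Finset.sum_add_distrib]
    apply Finset.sum_congr rfl
    intro j _
    rw [ih (fun l => s (j :: l)) (fun l => t (j :: l)), mul_add]

theorem P_sum {ι : Type*} (N k : ℕ) (s : Finset ι) (t : ι → List ℕ → ℤ) :
    P N k (fun l => ∑ i ∈ s, t i l) = ∑ i ∈ s, P N k (t i) := by
  classical
  induction s using Finset.induction_on with
  | empty => simp [P_zero_fun]
  | insert a s ha ih =>
    simp only [Finset.sum_insert ha]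
    rw [P_add, ih]

theorem P_nsmul (N k : ℕ) (a : ℕ) (t : List ℕ → ℤ) :
    P N k (fun l => (a : ℤ) * t l) = a • P N k t := by
  induction a with
  | zero => simp [P_zero_fun]
  | succ a ih =>
    have : (fun l => ((a + 1 : ℕ) : ℤ) * t l) = (fun l => (a : ℤ) * t l + t l) := by
      funext l
      push_cast
      ring
    rw [this, P_add, ih, succ_nsmul]

theorem P_list_sum {ι : Type*} (N k : ℕ) (s : List ι) (t : ι → List ℕ → ℤ) :
    P N k (fun l => (s.map (fun i => t i l)).sum) = (s.map (fun i => P N k (t i))).sum := by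
  induction s with
  | nil => simp [P_zero_fun]
  | cons a s ih =>
    simp only [List.map_cons, List.sum_cons]
    rw [P_add, ih]

section Coloring

variable {V : Type*} [Fintype V] [DecidableEq V]

/-- set-removal machine -/
def trF (st : Finset V → Bool) : Finset V → List ℕ → ℕ
  | W, [] => if W = ∅ then 1 else 0
  | W, j :: l => ∑ S ∈ W.powerset with (st S = true ∧ S.card = j), trF st (W \ S) l

omit [Fintype V] in
theorem trF_nil (st : Finset V → Bool) (W : Finset V) :
    trF st W [] = if W = ∅ then 1 else 0 := rfl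

omit [Fintype V] in
theorem trF_cons (st : Finset V → Bool) (W : Finset V) (j : ℕ) (l : List ℕ) :
    trF st W (j :: l) = ∑ S ∈ W.powerset with (st S = true ∧ S.card = j), trF st (W \ S) l := rfl

/-- colourings of `W` by `0, …, k-1`, extended by `0` outside `W`. -/
noncomputable def col (G : SimpleGraph V) (k : ℕ) (W : Finset V) : Finset (V → ℕ) := by
  classical
  exact (Fintype.piFinset (fun v => if v ∈ W then range k else {0})).filter
    (fun κ => ∀ u ∈ W, ∀ v ∈ W, G.Adj u v → κ u ≠ κ v)

theorem mem_col (G : SimpleGraph V) (k : ℕ) (W : Finset V) (κ : V → ℕ) :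
    κ ∈ col G k W ↔ (∀ v ∈ W, κ v < k) ∧ (∀ v, v ∉ W → κ v = 0) ∧
      (∀ u ∈ W, ∀ v ∈ W, G.Adj u v → κ u ≠ κ v) := by
  classical
  unfold col
  rw [Finset.mem_filter, Fintype.mem_piFinset]
  constructor
  · rintro ⟨h1, h2⟩
    refine ⟨?_, ?_, h2⟩
    · intro v hv
      have := h1 v
      rw [if_pos hv] at this
      exact Finset.mem_range.1 this
    · intro v hv
      have := h1 v
      rw [if_neg hv] at this
      exact Finset.mem_singleton.1 this
  · rintro ⟨h1, h2, h3⟩
    refine ⟨?_, h3⟩
    intro v
    by_cases hv : v ∈ W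
    · rw [if_pos hv]
      exact Finset.mem_range.2 (h1 v hv)
    · rw [if_neg hv]
      exact Finset.mem_singleton.2 (h2 v hv)

noncomputable def CF (G : SimpleGraph V) (k : ℕ) (W : Finset V) : MvPolynomial ℕ ℤ :=
  ∑ κ ∈ col G k W, ∏ v ∈ W, X (κ v)

theorem CF_zero (G : SimpleGraph V) (W : Finset V) :
    CF G 0 W = if W = ∅ then 1 else 0 := by
  unfold CF
  by_cases h : W = ∅
  · subst h
    rw [if_pos rfl]
    have : col G 0 (∅ : Finset V) = {fun _ => 0} := by
      ext κ
      rw [mem_col, Finset.mem_singleton]
      constructor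
      · rintro ⟨_, h2, _⟩
        funext v
        exact h2 v (Finset.notMem_empty v)
      · rintro rfl
        simp
    rw [this]
    simp
  · rw [if_neg h]
    obtain ⟨v, hv⟩ := Finset.nonempty_iff_ne_empty.2 h
    have : col G 0 W = ∅ := by
      ext κ
      rw [mem_col]
      constructor
      · rintro ⟨h1, _⟩
        exact absurd (h1 v hv) (Nat.not_lt_zero _)
      · intro h
        exact absurd h (Finset.notMem_empty _)
    rw [this, Finset.sum_empty]

theorem CF_succ (G : SimpleGraph V) (st : Finset V → Bool)
    (hst : ∀ S, st S = true ↔ ∀ u ∈ S, ∀ v ∈ S, ¬ G.Adj u v) (k : ℕ) (W : Finset V) :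
    CF G (k+1) W = ∑ S ∈ W.powerset with st S = true, X k ^ S.card * CF G k (W \ S) := by
  classical
  unfold CF
  rw [← Finset.sum_fiberwise_of_maps_to (s := col G (k+1) W)
    (t := W.powerset.filter (fun S => st S = true)) (g := fun κ => W.filter (fun v => κ v = k))]
  · apply Finset.sum_congr rfl
    intro S hS
    rw [Finset.mem_filter, Finset.mem_powerset] at hS
    obtain ⟨hSW, hSst⟩ := hS
    rw [Finset.mul_sum]
    apply Finset.sum_nbij' (i := fun κ v => if v ∈ S then 0 else κ v)
      (j := fun κ v => if v ∈ S then k else κ v)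
    · intro κ hκ
      rw [Finset.mem_filter, mem_col] at hκ
      obtain ⟨⟨h1, h2, h3⟩, h4⟩ := hκ
      rw [mem_col]
      refine ⟨?_, ?_, ?_⟩
      · intro v hv
        rw [Finset.mem_sdiff] at hv
        rw [if_neg hv.2]
        have hk := h1 v hv.1
        have : κ v ≠ k := by
          intro hk'
          apply hv.2
          rw [← h4, Finset.mem_filter]
          exact ⟨hv.1, hk'⟩
        omega
      · intro v hv
        by_cases hvS : v ∈ S
        · rw [if_pos hvS]
        · rw [if_neg hvS]
          apply h2
          intro hvW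
          exact hv (Finset.mem_sdiff.2 ⟨hvW, hvS⟩)
      · intro u hu v hv huv
        rw [Finset.mem_sdiff] at hu hv
        rw [if_neg hu.2, if_neg hv.2]
        exact h3 u hu.1 v hv.1 huv
    · intro κ hκ
      rw [mem_col] at hκ
      obtain ⟨h1, h2, h3⟩ := hκ
      rw [Finset.mem_filter, mem_col]
      refine ⟨⟨?_, ?_, ?_⟩, ?_⟩
      · intro v hv
        by_cases hvS : v ∈ S
        · rw [if_pos hvS]; omega
        · rw [if_neg hvS]
          have := h1 v (Finset.mem_sdiff.2 ⟨hv, hvS⟩)
          omega
      · intro v hv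
        have hvS : v ∉ S := fun h => hv (hSW h)
        rw [if_neg hvS]
        apply h2
        intro h
        exact hv (Finset.mem_sdiff.1 h).1
      · intro u hu v hv huv
        by_cases huS : u ∈ S
        · by_cases hvS : v ∈ S
          · exact absurd huv ((hst S).1 hSst u huS v hvS)
          · rw [if_pos huS, if_neg hvS]
            have := h1 v (Finset.mem_sdiff.2 ⟨hv, hvS⟩)
            omega
        · by_cases hvS : v ∈ S
          · rw [if_neg huS, if_pos hvS]
            have := h1 u (Finset.mem_sdiff.2 ⟨hu, huS⟩)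
            omega
          · rw [if_neg huS, if_neg hvS]
            exact h3 u (Finset.mem_sdiff.2 ⟨hu, huS⟩) v (Finset.mem_sdiff.2 ⟨hv, hvS⟩) huv
      · ext v
        rw [Finset.mem_filter]
        dsimp only
        constructor
        · rintro ⟨hv, h⟩
          by_contra hvS
          rw [if_neg hvS] at h
          have := h1 v (Finset.mem_sdiff.2 ⟨hv, hvS⟩)
          omega
        · intro hv
          exact ⟨hSW hv, by rw [if_pos hv]⟩
    · intro κ hκ
      rw [Finset.mem_filter, mem_col] at hκ
      obtain ⟨⟨h1, h2, h3⟩, h4⟩ := hκ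
      funext v
      dsimp only
      by_cases hvS : v ∈ S
      · rw [if_pos hvS]
        rw [← h4, Finset.mem_filter] at hvS
        exact hvS.2.symm
      · rw [if_neg hvS, if_neg hvS]
    · intro κ hκ
      rw [mem_col] at hκ
      obtain ⟨h1, h2, h3⟩ := hκ
      funext v
      dsimp only
      by_cases hvS : v ∈ S
      · rw [if_pos hvS]
        symm
        apply h2
        intro h
        exact (Finset.mem_sdiff.1 h).2 hvS
      · rw [if_neg hvS, if_neg hvS]
    · intro κ hκ
      rw [Finset.mem_filter, mem_col] at hκ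
      obtain ⟨⟨h1, h2, h3⟩, h4⟩ := hκ
      rw [← Finset.prod_sdiff hSW, mul_comm]
      congr 1
      · apply Finset.prod_eq_pow_card
        intro v hv
        rw [← h4, Finset.mem_filter] at hv
        rw [hv.2]
      · apply Finset.prod_congr rfl
        intro v hv
        dsimp only
        rw [if_neg (Finset.mem_sdiff.1 hv).2]
  · intro κ hκ
    rw [mem_col] at hκ
    obtain ⟨h1, h2, h3⟩ := hκ
    rw [Finset.mem_filter, Finset.mem_powerset]
    refine ⟨Finset.filter_subset _ _, ?_⟩
    rw [hst]
    intro u hu v hv huv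
    rw [Finset.mem_filter] at hu hv
    exact h3 u hu.1 v hv.1 huv (hu.2.trans hv.2.symm)

theorem CF_eq_P (G : SimpleGraph V) (st : Finset V → Bool)
    (hst : ∀ S, st S = true ↔ ∀ u ∈ S, ∀ v ∈ S, ¬ G.Adj u v) (N k : ℕ) (W : Finset V)
    (hW : W.card ≤ N) :
    CF G k W = P N k (fun l => (trF st W l : ℤ)) := by
  classical
  induction k generalizing W with
  | zero =>
    rw [CF_zero]
    simp only [P, trF_nil]
    split_ifs <;> simp
  | succ k ih =>
    rw [CF_succ G st hst]
    simp only [P]
    rw [← Finset.sum_fiberwise_of_maps_to (s := W.powerset.filter (fun S => st S = true))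
      (t := range (N+1)) (g := fun S => S.card)]
    · apply Finset.sum_congr rfl
      intro j _
      simp only [trF_cons]
      push_cast
      rw [P_sum, Finset.mul_sum]
      have e : (W.powerset.filter (fun S => st S = true)).filter (fun S => S.card = j)
          = W.powerset.filter (fun S => st S = true ∧ S.card = j) := by
        rw [Finset.filter_filter]
      rw [e]
      apply Finset.sum_congr rfl
      intro S hS
      rw [Finset.mem_filter] at hS
      rw [hS.2.2, ih (W \ S) ((Finset.card_le_card Finset.sdiff_subset).trans hW)]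
    · intro S hS
      rw [Finset.mem_filter, Finset.mem_powerset] at hS
      rw [Finset.mem_range]
      have := Finset.card_le_card hS.1
      omega

/-- the chromatic polynomial in the frozen form. -/
theorem finsum_eq_CF (G : SimpleGraph V) (k : ℕ) :
    (∑ᶠ κ : {κ : V → Fin k // ∀ u v, G.Adj u v → κ u ≠ κ v},
            ∏ v, (MvPolynomial.X ((κ.1 v : ℕ)) : MvPolynomial ℕ ℤ)) = CF G k Finset.univ := by
  classical
  rw [finsum_eq_sum_of_fintype]
  unfold CF
  apply Finset.sum_bij (i := fun κ _ v => ((κ.1 v : Fin k) : ℕ))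
  · intro κ _
    rw [mem_col]
    refine ⟨fun v _ => (κ.1 v).2, fun v hv => absurd (Finset.mem_univ v) hv, ?_⟩
    intro u _ v _ huv h
    exact κ.2 u v huv (Fin.ext h)
  · intro κ _ κ' _ h
    apply Subtype.ext
    funext v
    exact Fin.ext (congrFun h v)
  · intro κ hκ
    rw [mem_col] at hκ
    obtain ⟨h1, h2, h3⟩ := hκ
    refine ⟨⟨fun v => ⟨κ v, h1 v (Finset.mem_univ v)⟩, ?_⟩, Finset.mem_univ _, rfl⟩
    intro u v huv h
    exact h3 u (Finset.mem_univ u) v (Finset.mem_univ v) huv (congrArg Fin.val h)
  · intro κ _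
    rfl

end Coloring

end Pool.Agent.Y363.Machine
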