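import Mathlib

set_option autoImplicit false

namespace Pool.Agent.Y363.Schur

open Finset

/-- `lam` is obtained from `mu` by removing a horizontal strip. -/
def HS (lam mu : YoungDiagram) : Prop :=
  lam ≤ mu ∧ ∀ i j, (i+1, j) ∈ mu → (i, j) ∈ lam

/-- tableaux with entries below `k` -/
abbrev Tab (k : ℕ) (μ : YoungDiagram) : Type :=
  {T : SemistandardYoungTableau μ // ∀ p ∈ μ.cells, T p.1 p.2 < k}

/-- the Schur polynomial in `k` variables. -/
noncomputable def Sch (k : ℕ) (μ : YoungDiagram) : MvPolynomial ℕ ℤ :=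
  ∑ᶠ T : {T : SemistandardYoungTableau μ // ∀ p ∈ μ.cells, T p.1 p.2 < k},
            ∏ p ∈ μ.cells, (MvPolynomial.X (T.1 p.1 p.2) : MvPolynomial ℕ ℤ)

instance finTab (k : ℕ) (μ : YoungDiagram) : Finite (Tab k μ) := by
  let f : Tab k μ → (μ.cells → Fin k) := fun T p => ⟨T.1 p.1.1 p.1.2, T.2 p.1 p.2⟩
  refine Finite.of_injective f ?_
  intro T T' h
  apply Subtype.ext
  apply SemistandardYoungTableau.ext
  intro i j
  by_cases hij : (i, j) ∈ μ
  · have := congrFun h ⟨(i, j), hij⟩
    simpa [f] using congrArg Fin.val this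
  · rw [T.1.zeros hij, T'.1.zeros hij]

instance finHS (μ : YoungDiagram) : Finite {lam : YoungDiagram // HS lam μ} := by
  let f : {lam : YoungDiagram // HS lam μ} → μ.cells.powerset := fun lam =>
    ⟨lam.1.cells, Finset.mem_powerset.2 lam.2.1⟩
  refine Finite.of_injective f ?_
  intro a b h
  have := congrArg Subtype.val h
  simp only [f] at this
  apply Subtype.ext
  exact YoungDiagram.ext this

/-- glue a tableau of shape `lam` with entries `< k` and a strip filled with `k`. -/
def glue (k : ℕ) (μ : YoungDiagram) (x : Σ lam : {lam : YoungDiagram // HS lam μ}, Tab k lam.1) :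
    Tab (k+1) μ := by
  refine ⟨⟨fun i j => if (i, j) ∈ x.1.1 then x.2.1 i j else if (i, j) ∈ μ then k else 0, ?_, ?_, ?_⟩, ?_⟩
  · intro i j1 j2 hj h2
    have h1 : (i, j1) ∈ μ := μ.up_left_mem le_rfl hj.le h2
    by_cases h2' : (i, j2) ∈ x.1.1
    · have h1' : (i, j1) ∈ x.1.1 := x.1.1.up_left_mem le_rfl hj.le h2'
      rw [if_pos h1', if_pos h2']
      exact x.2.1.row_weak hj h2'
    · rw [if_neg h2', if_pos h2]
      by_cases h1' : (i, j1) ∈ x.1.1
      · rw [if_pos h1']
        exact (x.2.2 (i, j1) h1').le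
      · rw [if_neg h1', if_pos h1]
  · intro i1 i2 j hi h2
    have h1 : (i1 + 1, j) ∈ μ := μ.up_left_mem hi le_rfl h2
    have h1' : (i1, j) ∈ x.1.1 := x.1.2.2 i1 j h1
    rw [if_pos h1']
    by_cases h2' : (i2, j) ∈ x.1.1
    · rw [if_pos h2']
      exact x.2.1.col_strict hi h2'
    · rw [if_neg h2', if_pos h2]
      exact x.2.2 (i1, j) h1'
  · intro i j h
    have h' : (i, j) ∉ x.1.1 := fun hh => h (x.1.2.1 hh)
    rw [if_neg h', if_neg h]
  · rintro ⟨i, j⟩ hp
    change (if (i, j) ∈ x.1.1 then x.2.1 i j else if (i, j) ∈ μ then k else 0) < k + 1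
    by_cases h' : (i, j) ∈ x.1.1
    · rw [if_pos h']
      have := x.2.2 (i, j) h'
      simp only at this
      omega
    · rw [if_neg h', if_pos (show (i, j) ∈ μ from hp)]
      omega

theorem glue_apply (k : ℕ) (μ : YoungDiagram)
    (x : Σ lam : {lam : YoungDiagram // HS lam μ}, Tab k lam.1) (i j : ℕ) :
    (glue k μ x).1 i j = if (i, j) ∈ x.1.1 then x.2.1 i j else if (i, j) ∈ μ then k else 0 := rfl

theorem glue_inj (k : ℕ) (μ : YoungDiagram) : Function.Injective (glue k μ) := by
  rintro ⟨⟨lam, hl⟩, T⟩ ⟨⟨lam', hl'⟩, T'⟩ h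
  have key : ∀ i j, (if (i, j) ∈ lam then T.1 i j else if (i, j) ∈ μ then k else 0)
      = (if (i, j) ∈ lam' then T'.1 i j else if (i, j) ∈ μ then k else 0) := by
    intro i j
    have := congrArg (fun t : Tab (k+1) μ => t.1 i j) h
    simpa only [glue_apply] using this
  have hsub : lam = lam' := by
    apply YoungDiagram.ext
    ext ⟨i, j⟩
    have hk := key i j
    constructor
    · intro hm
      by_contra hm'
      rw [if_pos (show (i, j) ∈ lam from hm), if_neg (show (i, j) ∉ lam' from hm'),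
        if_pos (hl.1 hm)] at hk
      have := T.2 (i, j) hm
      simp only at this
      omega
    · intro hm
      by_contra hm'
      rw [if_pos (show (i, j) ∈ lam' from hm), if_neg (show (i, j) ∉ lam from hm'),
        if_pos (hl'.1 hm)] at hk
      have := T'.2 (i, j) hm
      simp only at this
      omega
  subst hsub
  have hT : T = T' := by
    apply Subtype.ext
    apply SemistandardYoungTableau.ext
    intro i j
    by_cases hij : (i, j) ∈ lam
    · have := key i j
      rwa [if_pos hij, if_pos hij] at this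
    · rw [T.1.zeros hij, T'.1.zeros hij]
  subst hT
  rfl

theorem glue_surj (k : ℕ) (μ : YoungDiagram) : Function.Surjective (glue k μ) := by
  intro T
  let lam : YoungDiagram := ⟨μ.cells.filter (fun p => T.1 p.1 p.2 < k), by
    rintro ⟨i2, j2⟩ ⟨i1, j1⟩ ⟨hi : i1 ≤ i2, hj : j1 ≤ j2⟩ hc
    rw [Finset.mem_coe, Finset.mem_filter] at hc ⊢
    refine ⟨μ.up_left_mem hi hj hc.1, ?_⟩
    change T.1 i1 j1 < k
    have h1 : T.1 i1 j1 ≤ T.1 i1 j2 := T.1.row_weak_of_le hj (μ.up_left_mem hi le_rfl hc.1)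
    have h2 : T.1 i1 j2 ≤ T.1 i2 j2 := T.1.col_weak hi hc.1
    have h3 := hc.2
    simp only at h3
    omega⟩
  have hlam : ∀ i j, (i, j) ∈ lam ↔ (i, j) ∈ μ ∧ T.1 i j < k := by
    intro i j
    change (i, j) ∈ μ.cells.filter (fun p => T.1 p.1 p.2 < k) ↔ _
    simp
  have hHS : HS lam μ := by
    refine ⟨?_, ?_⟩
    · rintro ⟨i, j⟩ h
      exact ((hlam i j).1 h).1
    · intro i j h
      rw [hlam]
      refine ⟨μ.up_left_mem (Nat.le_succ i) le_rfl h, ?_⟩
      have h1 := T.1.col_strict (Nat.lt_succ_self i) h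
      have h2 := T.2 (i+1, j) h
      simp only at h2
      simp only [Nat.succ_eq_add_one] at h1
      omega
  let T' : SemistandardYoungTableau lam :=
    ⟨fun i j => if (i, j) ∈ lam then T.1 i j else 0, by
      intro i j1 j2 hj h2
      have h1 : (i, j1) ∈ lam := lam.up_left_mem le_rfl hj.le h2
      rw [if_pos h1, if_pos h2]
      exact T.1.row_weak hj ((hlam _ _).1 h2).1, by
      intro i1 i2 j hi h2
      have h1 : (i1, j) ∈ lam := lam.up_left_mem hi.le le_rfl h2
      rw [if_pos h1, if_pos h2]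
      exact T.1.col_strict hi ((hlam _ _).1 h2).1, by
      intro i j h
      rw [if_neg h]⟩
  have hT' : ∀ i j, T' i j = if (i, j) ∈ lam then T.1 i j else 0 := fun i j => rfl
  refine ⟨⟨⟨lam, hHS⟩, ⟨T', ?_⟩⟩, ?_⟩
  · rintro ⟨i, j⟩ h
    have h' : (i, j) ∈ lam := h
    simp only [hT', if_pos h']
    exact ((hlam i j).1 h').2
  · apply Subtype.ext
    apply SemistandardYoungTableau.ext
    intro i j
    rw [glue_apply]
    simp only [hT']
    by_cases h : (i, j) ∈ lam
    · simp only [if_pos h]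
    · rw [if_neg h]
      by_cases h' : (i, j) ∈ μ
      · rw [if_pos h']
        have h1 : ¬ T.1 i j < k := fun h2 => h ((hlam i j).2 ⟨h', h2⟩)
        have h2 := T.2 (i, j) h'
        simp only at h2
        omega
      · rw [if_neg h', T.1.zeros h']

theorem glue_prod (k : ℕ) (μ : YoungDiagram)
    (x : Σ lam : {lam : YoungDiagram // HS lam μ}, Tab k lam.1) :
    ∏ p ∈ μ.cells, (MvPolynomial.X ((glue k μ x).1 p.1 p.2) : MvPolynomial ℕ ℤ)
      = MvPolynomial.X k ^ (μ.cells.card - x.1.1.cells.card) *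
        ∏ p ∈ x.1.1.cells, (MvPolynomial.X (x.2.1 p.1 p.2) : MvPolynomial ℕ ℤ) := by
  have hsub : x.1.1.cells ⊆ μ.cells := x.1.2.1
  rw [← Finset.prod_sdiff hsub]
  congr 1
  · rw [← Finset.card_sdiff_of_subset hsub]
    apply Finset.prod_eq_pow_card
    rintro ⟨i, j⟩ hp
    rw [Finset.mem_sdiff] at hp
    rw [glue_apply, if_neg (show ((i, j).1, (i, j).2) ∉ x.1.1 from hp.2),
      if_pos (show ((i, j).1, (i, j).2) ∈ μ from hp.1)]
  · apply Finset.prod_congr rfl
    rintro ⟨i, j⟩ hp
    rw [glue_apply, if_pos (show ((i, j).1, (i, j).2) ∈ x.1.1 from hp)]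

theorem Sch_succ (k : ℕ) (μ : YoungDiagram) :
    Sch (k+1) μ = ∑ᶠ lam : {lam : YoungDiagram // HS lam μ},
      MvPolynomial.X k ^ (μ.cells.card - lam.1.cells.card) * Sch k lam.1 := by
  classical
  have := Fintype.ofFinite (Tab (k+1) μ)
  have := Fintype.ofFinite {lam : YoungDiagram // HS lam μ}
  have : ∀ lam : {lam : YoungDiagram // HS lam μ}, Fintype (Tab k lam.1) :=
    fun lam => Fintype.ofFinite _
  unfold Sch
  rw [finsum_eq_sum_of_fintype, finsum_eq_sum_of_fintype]
  rw [← Equiv.sum_comp (Equiv.ofBijective (glue k μ) ⟨glue_inj k μ, glue_surj k μ⟩)]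
  rw [Fintype.sum_sigma]
  apply Finset.sum_congr rfl
  intro lam _
  rw [finsum_eq_sum_of_fintype, Finset.mul_sum]
  apply Finset.sum_congr rfl
  intro T _
  exact glue_prod k μ ⟨lam, T⟩

theorem Sch_zero (μ : YoungDiagram) : Sch 0 μ = if μ.cells.card = 0 then 1 else 0 := by
  classical
  have := Fintype.ofFinite (Tab 0 μ)
  unfold Sch
  rw [finsum_eq_sum_of_fintype]
  by_cases h : μ.cells.card = 0
  · rw [if_pos h]
    have h0 : μ.cells = ∅ := Finset.card_eq_zero.1 h
    have hμ : μ = ⊥ := YoungDiagram.ext h0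
    subst hμ
    have : Unique (Tab 0 (⊥ : YoungDiagram)) :=
      { default := ⟨default, by intro p hp; simp at hp⟩
        uniq := by
          intro T
          apply Subtype.ext
          apply SemistandardYoungTableau.ext
          intro i j
          rw [T.1.zeros (YoungDiagram.notMem_bot _)]
          rw [SemistandardYoungTableau.zeros _ (YoungDiagram.notMem_bot _)] }
    rw [Fintype.sum_unique]
    simp
  · rw [if_neg h]
    have hne : μ.cells.Nonempty := Finset.card_ne_zero.1 h
    obtain ⟨p, hp⟩ := hne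
    have : IsEmpty (Tab 0 μ) := ⟨fun T => by
      have := T.2 p hp
      omega⟩
    exact Fintype.sum_empty _

end Pool.Agent.Y363.Schur
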