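import Mathlib
import Pool.Agent.Y363.Schur
import Pool.Agent.Y363.Machine

set_option autoImplicit false

namespace Pool.Agent.Y363.SchurList

open Finset Pool.Agent.Y363.Schur Pool.Agent.Y363.Machine

def Dec : List ℕ → Prop
  | [] => True
  | a :: t => t.headD 0 ≤ a ∧ Dec t

instance decDec : (w : List ℕ) → Decidable (Dec w)
  | [] => isTrue trivial
  | a :: t => by
    have := decDec t
    unfold Dec
    infer_instance

def hs : List ℕ → List (List ℕ)
  | [] => [[]]
  | a :: t => (List.range' (t.headD 0) (a + 1 - t.headD 0)).flatMap (fun x => (hs t).map (x :: ·))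

def IL : List ℕ → List ℕ → Bool
  | [], [] => true
  | x :: t', a :: t => Nat.ble (t.headD 0) x && (Nat.ble x a && IL t' t)
  | [], _ :: _ => false
  | _ :: _, [] => false

def tr : List ℕ → List ℕ → ℕ
  | [], w => if w.sum = 0 then 1 else 0
  | j :: l, w => ((hs w).map (fun w' => if w'.sum + j = w.sum then tr l w' else 0)).sum

theorem mem_hs (w w' : List ℕ) : w' ∈ hs w ↔ IL w' w = true := by
  induction w generalizing w' with
  | nil =>
    cases w' <;> simp [hs, IL]
  | cons a t ih =>
    cases w' with
    | nil => simp [hs, IL]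
    | cons x t' =>
      simp only [hs, IL, List.mem_flatMap, List.mem_range', List.mem_map, Bool.and_eq_true,
        Nat.ble_eq]
      constructor
      · rintro ⟨y, ⟨i, hi, rfl⟩, z, hz, he⟩
        simp only [List.cons.injEq] at he
        obtain ⟨rfl, rfl⟩ := he
        refine ⟨by omega, by omega, (ih _).1 hz⟩
      · rintro ⟨h1, h2, h3⟩
        exact ⟨x, ⟨x - t.headD 0, by omega, by omega⟩, t', (ih _).2 h3, rfl⟩

theorem nodup_hs (w : List ℕ) : (hs w).Nodup := by
  induction w with
  | nil => simp [hs]
  | cons a t ih =>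
    simp only [hs]
    rw [List.nodup_flatMap]
    refine ⟨?_, ?_⟩
    · intro x _
      exact ih.map (List.cons_injective)
    · refine List.Pairwise.imp ?_ (List.nodup_range' (s := t.headD 0) (n := a + 1 - t.headD 0))
      intro x y hxy z hz hz'
      rw [List.mem_map] at hz hz'
      obtain ⟨z1, _, rfl⟩ := hz
      obtain ⟨z2, _, h⟩ := hz'
      simp only [List.cons.injEq] at h
      exact hxy h.1.symm

theorem IL_iff (w' w : List ℕ) : IL w' w = true ↔
    w'.length = w.length ∧ ∀ i, w.getD (i+1) 0 ≤ w'.getD i 0 ∧ w'.getD i 0 ≤ w.getD i 0 := by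
  induction w generalizing w' with
  | nil =>
    cases w' <;> simp [IL]
  | cons a t ih =>
    cases w' with
    | nil => simp [IL]
    | cons x t' =>
      simp only [IL, Bool.and_eq_true, Nat.ble_eq, ih, List.length_cons, Nat.add_right_cancel_iff]
      constructor
      · rintro ⟨h1, h2, h3, h4⟩
        refine ⟨h3, ?_⟩
        intro i
        cases i with
        | zero =>
          simp only [List.getD_cons_succ, List.getD_cons_zero]
          refine ⟨?_, h2⟩
          cases t with
          | nil => simp
          | cons b t => simpa using h1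
        | succ i =>
          simp only [List.getD_cons_succ]
          exact h4 i
      · rintro ⟨h3, h4⟩
        have h0 := h4 0
        simp only [List.getD_cons_succ, List.getD_cons_zero] at h0
        refine ⟨?_, h0.2, h3, ?_⟩
        · cases t with
          | nil => simp
          | cons b t => simpa using h0.1
        · intro i
          have := h4 (i+1)
          simpa only [List.getD_cons_succ] using this

theorem Dec_iff (w : List ℕ) : Dec w ↔ ∀ i, w.getD (i+1) 0 ≤ w.getD i 0 := by
  induction w with
  | nil => simp [Dec]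
  | cons a t ih =>
    simp only [Dec, ih]
    constructor
    · rintro ⟨h1, h2⟩ i
      cases i with
      | zero =>
        simp only [List.getD_cons_succ, List.getD_cons_zero]
        cases t with
        | nil => simp
        | cons b t => simpa using h1
      | succ i => simpa only [List.getD_cons_succ] using h2 i
    · intro h
      refine ⟨?_, ?_⟩
      · have := h 0
        simp only [List.getD_cons_succ, List.getD_cons_zero] at this
        cases t with
        | nil => simp
        | cons b t => simpa using this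
      · intro i
        have := h (i+1)
        simpa only [List.getD_cons_succ] using this

theorem Dec_anti {w : List ℕ} (h : Dec w) : Antitone (fun i => w.getD i 0) :=
  antitone_nat_of_succ_le ((Dec_iff w).1 h)

theorem Dec_of_IL {w' w : List ℕ} (h : IL w' w = true) : Dec w' := by
  rw [Dec_iff]
  intro i
  have := ((IL_iff w' w).1 h).2
  exact (this (i+1)).2.trans (this i).1

theorem mem_cells_getD (w : List ℕ) (c : ℕ × ℕ) :
    c ∈ YoungDiagram.cellsOfRowLens w ↔ c.2 < w.getD c.1 0 := by
  rw [YoungDiagram.mem_cellsOfRowLens]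
  constructor
  · rintro ⟨h, h'⟩
    rwa [List.getD_eq_getElem _ _ h]
  · intro h
    by_cases hl : c.1 < w.length
    · refine ⟨hl, ?_⟩
      rwa [List.getD_eq_getElem _ _ hl] at h
    · rw [List.getD_eq_default _ _ (not_lt.1 hl)] at h
      omega

/-- Young diagram with row lengths `w` -/
def yd (w : List ℕ) : YoungDiagram :=
  if h : Dec w then
    ⟨YoungDiagram.cellsOfRowLens w, by
      rintro ⟨i2, j2⟩ ⟨i1, j1⟩ ⟨hi : i1 ≤ i2, hj : j1 ≤ j2⟩ hcell
      rw [Finset.mem_coe, mem_cells_getD] at hcell ⊢
      have := Dec_anti h hi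
      simp only at this hcell ⊢
      omega⟩
  else ⊥

theorem yd_cells {w : List ℕ} (h : Dec w) : (yd w).cells = YoungDiagram.cellsOfRowLens w := by
  unfold yd
  rw [dif_pos h]

theorem mem_yd {w : List ℕ} (h : Dec w) (i j : ℕ) : (i, j) ∈ yd w ↔ j < w.getD i 0 := by
  rw [← YoungDiagram.mem_cells, yd_cells h, mem_cells_getD]

theorem card_cells (w : List ℕ) : (YoungDiagram.cellsOfRowLens w).card = w.sum := by
  induction w with
  | nil => simp [YoungDiagram.cellsOfRowLens]
  | cons a t ih =>
    rw [YoungDiagram.cellsOfRowLens, Finset.card_union_of_disjoint]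
    · rw [Finset.card_product, Finset.card_singleton, Finset.card_range, Finset.card_map, ih,
        List.sum_cons, one_mul]
    · rw [Finset.disjoint_left]
      rintro ⟨i, j⟩ h1 h2
      rw [Finset.mem_product, Finset.mem_singleton] at h1
      rw [Finset.mem_map] at h2
      obtain ⟨⟨i', j'⟩, _, h⟩ := h2
      have : i' + 1 = i := congrArg Prod.fst h
      have h1' : i = 0 := h1.1
      omega

theorem card_yd {w : List ℕ} (h : Dec w) : (yd w).cells.card = w.sum := by
  rw [yd_cells h, card_cells]

theorem HS_of_IL {w' w : List ℕ} (hw : Dec w) (h : IL w' w = true) : HS (yd w') (yd w) := by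
  have hw' := Dec_of_IL h
  have hI := ((IL_iff w' w).1 h).2
  refine ⟨?_, ?_⟩
  · rintro ⟨i, j⟩ hm
    change (i, j) ∈ yd w' at hm
    rw [mem_yd hw'] at hm
    rw [mem_yd hw]
    exact lt_of_lt_of_le hm (hI i).2
  · intro i j hm
    rw [mem_yd hw] at hm
    rw [mem_yd hw']
    exact lt_of_lt_of_le hm (hI i).1

theorem exists_IL {w : List ℕ} (hw : Dec w) (lam : YoungDiagram) (h : HS lam (yd w)) :
    ∃ w', IL w' w = true ∧ yd w' = lam := by
  have hzero : ∀ i, w.length ≤ i → lam.rowLen i = 0 := by
    intro i hi
    by_contra hne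
    have h1 : (i, 0) ∈ lam := YoungDiagram.mem_iff_lt_rowLen.2 (Nat.pos_of_ne_zero hne)
    have h2 : (i, 0) ∈ yd w := h.1 h1
    rw [mem_yd hw, List.getD_eq_default _ _ hi] at h2
    omega
  have hget : ∀ i, ((List.range w.length).map lam.rowLen).getD i 0 = lam.rowLen i := by
    intro i
    by_cases hi : i < w.length
    · rw [List.getD_eq_getElem _ _ (by simpa using hi)]
      simp
    · rw [List.getD_eq_default _ _ (by simpa using hi), hzero i (not_lt.1 hi)]
  have hIL : IL ((List.range w.length).map lam.rowLen) w = true := by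
    rw [IL_iff]
    refine ⟨by simp, ?_⟩
    intro i
    rw [hget]
    constructor
    · by_contra hlt
      rw [not_le] at hlt
      have h1 : (i+1, lam.rowLen i) ∈ yd w := (mem_yd hw _ _).2 hlt
      have h2 := h.2 _ _ h1
      rw [YoungDiagram.mem_iff_lt_rowLen] at h2
      omega
    · by_contra hlt
      rw [not_le] at hlt
      have h1 : (i, w.getD i 0) ∈ lam := YoungDiagram.mem_iff_lt_rowLen.2 hlt
      have h2 : (i, w.getD i 0) ∈ yd w := h.1 h1
      rw [mem_yd hw] at h2
      omega
  refine ⟨_, hIL, ?_⟩
  apply YoungDiagram.ext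
  ext ⟨i, j⟩
  rw [YoungDiagram.mem_cells, YoungDiagram.mem_cells, mem_yd (Dec_of_IL hIL), hget,
    YoungDiagram.mem_iff_lt_rowLen]

theorem yd_inj {w1 w2 : List ℕ} (h1 : Dec w1) (h2 : Dec w2) (hl : w1.length = w2.length)
    (h : yd w1 = yd w2) : w1 = w2 := by
  have key : ∀ i, w1.getD i 0 = w2.getD i 0 := by
    intro i
    apply le_antisymm
    · by_contra hlt
      rw [not_le] at hlt
      have := (mem_yd h1 i (w2.getD i 0)).2 hlt
      rw [h, mem_yd h2] at this
      omega
    · by_contra hlt
      rw [not_le] at hlt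
      have := (mem_yd h2 i (w1.getD i 0)).2 hlt
      rw [← h, mem_yd h1] at this
      omega
  apply List.ext_getElem hl
  intro i hi1 hi2
  have := key i
  rwa [List.getD_eq_getElem _ _ hi1, List.getD_eq_getElem _ _ hi2] at this

theorem Sch_succ_list (k : ℕ) (w : List ℕ) (hw : Dec w) :
    Sch (k+1) (yd w) = ∑ w' ∈ (hs w).toFinset,
      MvPolynomial.X k ^ (w.sum - w'.sum) * Sch k (yd w') := by
  classical
  rw [Sch_succ]
  have := Fintype.ofFinite {lam : YoungDiagram // HS lam (yd w)}
  rw [finsum_eq_sum_of_fintype]
  symm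
  apply Finset.sum_bij (i := fun w' hw' =>
    (⟨yd w', HS_of_IL hw ((mem_hs _ _).1 (List.mem_toFinset.1 hw'))⟩ :
      {lam : YoungDiagram // HS lam (yd w)}))
  · intro w' _
    exact Finset.mem_univ _
  · intro w1 h1 w2 h2 h
    have h1' := (mem_hs _ _).1 (List.mem_toFinset.1 h1)
    have h2' := (mem_hs _ _).1 (List.mem_toFinset.1 h2)
    apply yd_inj (Dec_of_IL h1') (Dec_of_IL h2')
    · rw [((IL_iff _ _).1 h1').1, ((IL_iff _ _).1 h2').1]
    · exact congrArg Subtype.val h
  · rintro ⟨lam, hlam⟩ _
    obtain ⟨w', hI, hy⟩ := exists_IL hw lam hlam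
    exact ⟨w', List.mem_toFinset.2 ((mem_hs _ _).2 hI), Subtype.ext hy⟩
  · intro w' h'
    have h1' := (mem_hs _ _).1 (List.mem_toFinset.1 h')
    rw [card_yd hw, card_yd (Dec_of_IL h1')]

theorem sum_le_of_IL {w' w : List ℕ} (h : IL w' w = true) : w'.sum ≤ w.sum := by
  induction w generalizing w' with
  | nil =>
    cases w' with
    | nil => simp
    | cons => simp [IL] at h
  | cons a t ih =>
    cases w' with
    | nil => simp
    | cons x t' =>
      simp only [IL, Bool.and_eq_true, Nat.ble_eq] at h
      have := ih h.2.2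
      simp only [List.sum_cons]
      omega

theorem tr_cons (j : ℕ) (l w : List ℕ) :
    tr (j :: l) w = ∑ w' ∈ (hs w).toFinset, if w'.sum + j = w.sum then tr l w' else 0 := by
  rw [List.sum_toFinset _ (nodup_hs w)]
  rfl

theorem Sch_eq_P (N k : ℕ) (w : List ℕ) (hw : Dec w) (hN : w.sum ≤ N) :
    Sch k (yd w) = P N k (fun l => (tr l w : ℤ)) := by
  classical
  induction k generalizing w with
  | zero =>
    rw [Sch_zero, card_yd hw]
    simp only [P, tr]
    split_ifs <;> simp
  | succ k ih =>
    rw [Sch_succ_list k w hw]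
    simp only [P]
    simp only [tr_cons]
    push_cast
    simp only [P_sum, Finset.mul_sum]
    rw [Finset.sum_comm]
    apply Finset.sum_congr rfl
    intro w' hw'
    have hI := (mem_hs _ _).1 (List.mem_toFinset.1 hw')
    have hs' := sum_le_of_IL hI
    rw [Finset.sum_eq_single (w.sum - w'.sum)]
    · have : w'.sum + (w.sum - w'.sum) = w.sum := by omega
      simp only [if_pos this]
      rw [ih w' (Dec_of_IL hI) (hs'.trans hN)]
    · intro j _ hj
      have : ¬ (w'.sum + j = w.sum) := by omega
      simp only [if_neg this]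
      rw [P_zero_fun, mul_zero]
    · intro h
      exfalso
      apply h
      rw [Finset.mem_range]
      omega

end Pool.Agent.Y363.SchurList
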