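import Mathlib
import Pool.Agent.Y363.SchurList

set_option autoImplicit false

namespace Pool.Agent.Y363.SchurList

open Finset

theorem IL_self {w : List ℕ} (h : Dec w) : IL w w = true := by
  rw [IL_iff]
  exact ⟨rfl, fun i => ⟨(Dec_iff w).1 h i, le_rfl⟩⟩

theorem eq_of_IL_sum {w' w : List ℕ} (h : IL w' w = true) (hs : w'.sum = w.sum) : w' = w := by
  induction w generalizing w' with
  | nil =>
    cases w' with
    | nil => rfl
    | cons => simp [IL] at h
  | cons a t ih =>
    cases w' with
    | nil => simp [IL] at h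
    | cons x t' =>
      simp only [IL, Bool.and_eq_true, Nat.ble_eq] at h
      have h1 := sum_le_of_IL h.2.2
      simp only [List.sum_cons] at hs
      have h2 : t'.sum = t.sum := by omega
      have h3 : x = a := by omega
      rw [ih h.2.2 h2, h3]

theorem tr_zero_cons (l w : List ℕ) (hw : Dec w) : tr (0 :: l) w = tr l w := by
  rw [tr_cons, Finset.sum_eq_single w]
  · simp
  · intro w' hw' hne
    rw [if_neg]
    intro h
    exact hne (eq_of_IL_sum ((mem_hs _ _).1 (List.mem_toFinset.1 hw')) (by omega))
  · intro h
    exact absurd (List.mem_toFinset.2 ((mem_hs _ _).2 (IL_self hw))) h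

theorem tr_filter (l w : List ℕ) (hw : Dec w) : tr l w = tr (l.filter (fun a => a ≠ 0)) w := by
  induction l generalizing w with
  | nil => rfl
  | cons a l ih =>
    by_cases ha : a = 0
    · subst ha
      rw [tr_zero_cons l w hw, ih w hw]
      simp
    · rw [List.filter_cons_of_pos (by simpa using ha), tr_cons, tr_cons]
      apply Finset.sum_congr rfl
      intro w' hw'
      rw [ih w' (Dec_of_IL ((mem_hs _ _).1 (List.mem_toFinset.1 hw')))]

theorem tr_sum_ne (l w : List ℕ) (h : l.sum ≠ w.sum) : tr l w = 0 := by
  induction l generalizing w with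
  | nil =>
    simp only [tr]
    rw [if_neg]
    intro h'
    apply h
    simp [h']
  | cons a l ih =>
    rw [tr_cons]
    apply Finset.sum_eq_zero
    intro w' _
    split_ifs with hc
    · apply ih
      rw [List.sum_cons] at h
      omega
    · rfl

def partsB : ℕ → ℕ → ℕ → List (List ℕ)
  | 0, m, _ => if m = 0 then [[]] else []
  | L+1, m, b => (List.range (min b m + 1)).flatMap (fun x => (partsB L (m - x) x).map (x :: ·))

theorem mem_partsB (L m b : ℕ) (w : List ℕ) :
    w ∈ partsB L m b ↔ w.length = L ∧ w.sum = m ∧ Dec w ∧ w.headD 0 ≤ b := by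
  induction L generalizing m b w with
  | zero =>
    simp only [partsB]
    constructor
    · intro h
      split_ifs at h with hm
      · rw [List.mem_singleton] at h
        subst h
        simp [Dec, hm]
      · simp at h
    · rintro ⟨h1, h2, _⟩
      have : w = [] := List.length_eq_zero_iff.1 h1
      subst this
      rw [List.sum_nil] at h2
      rw [if_pos h2.symm]
      exact List.mem_singleton.2 rfl
  | succ L ih =>
    simp only [partsB, List.mem_flatMap, List.mem_range, List.mem_map]
    constructor
    · rintro ⟨x, hx, t, ht, rfl⟩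
      rw [ih] at ht
      obtain ⟨h1, h2, h3, h4⟩ := ht
      simp only [List.length_cons, List.sum_cons, List.headD_cons, Dec]
      refine ⟨by omega, by omega, ⟨h4, h3⟩, by omega⟩
    · rintro ⟨h1, h2, h3, h4⟩
      cases w with
      | nil => simp at h1
      | cons x t =>
        simp only [List.length_cons, List.sum_cons, List.headD_cons, Dec] at h1 h2 h3 h4
        refine ⟨x, by omega, t, ?_, rfl⟩
        rw [ih]
        exact ⟨by omega, by omega, h3.2, h3.1⟩

theorem nodup_partsB (L m b : ℕ) : (partsB L m b).Nodup := by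
  induction L generalizing m b with
  | zero =>
    simp only [partsB]
    split_ifs <;> simp
  | succ L ih =>
    simp only [partsB]
    rw [List.nodup_flatMap]
    refine ⟨?_, ?_⟩
    · intro x _
      exact (ih _ _).map (List.cons_injective)
    · refine List.Pairwise.imp ?_ (List.nodup_range (n := min b m + 1))
      intro x y hxy z hz hz'
      rw [List.mem_map] at hz hz'
      obtain ⟨z1, _, rfl⟩ := hz
      obtain ⟨z2, _, h⟩ := hz'
      simp only [List.cons.injEq] at h
      exact hxy h.1.symm

theorem headD_le_sum (w : List ℕ) : w.headD 0 ≤ w.sum := by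
  cases w <;> simp

/-- linear functional given by a formal combination -/
def RV (v : List (List ℕ × ℕ)) (l : List ℕ) : ℕ := (v.map (fun p => p.2 * tr l p.1)).sum

def stepV (ps : List (List ℕ)) (v : List (List ℕ × ℕ)) : List (List ℕ × ℕ) :=
  ps.map (fun w' => (w', ((v.filter (fun p => IL w' p.1)).map Prod.snd).sum))

theorem tr_cons_parts (L m m' j B : ℕ) (hm : m' + j = m) (hB : m' ≤ B) (w : List ℕ)
    (hl : w.length = L) (hsum : w.sum = m) (_hd : Dec w) (l : List ℕ) :
    tr (j :: l) w = ((partsB L m' B).map (fun w' => if IL w' w = true then tr l w' else 0)).sum := by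
  rw [tr_cons, ← List.sum_toFinset _ (nodup_partsB L m' B)]
  rw [← Finset.sum_filter, ← Finset.sum_filter]
  apply Finset.sum_congr
  · ext w'
    simp only [Finset.mem_filter, List.mem_toFinset, mem_hs, mem_partsB]
    constructor
    · rintro ⟨h1, h2⟩
      refine ⟨⟨?_, ?_, Dec_of_IL h1, ?_⟩, h1⟩
      · rw [((IL_iff _ _).1 h1).1, hl]
      · omega
      · have := headD_le_sum w'
        omega
    · rintro ⟨⟨h1, h2, h3, h4⟩, h5⟩
      exact ⟨h5, by omega⟩
  · intros; rfl

theorem stepV_sound (L m m' j B : ℕ) (hm : m' + j = m) (hB : m' ≤ B) (v : List (List ℕ × ℕ))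
    (hv : ∀ p ∈ v, p.1.length = L ∧ p.1.sum = m ∧ Dec p.1) (l : List ℕ) :
    RV v (j :: l) = RV (stepV (partsB L m' B) v) l := by
  induction v with
  | nil =>
    simp only [RV, stepV, List.map_nil, List.sum_nil, List.filter_nil, List.map_map]
    symm
    apply List.sum_eq_zero
    intro x hx
    rw [List.mem_map] at hx
    obtain ⟨w', _, rfl⟩ := hx
    simp
  | cons p v ih =>
    have ihv := ih (fun q hq => hv q (List.mem_cons_of_mem _ hq))
    obtain ⟨h1, h2, h3⟩ := hv p List.mem_cons_self
    have e1 : RV (p :: v) (j :: l) = p.2 * tr (j :: l) p.1 + RV v (j :: l) := by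
      simp [RV]
    rw [e1, ihv, tr_cons_parts L m m' j B hm hB p.1 h1 h2 h3]
    simp only [RV, stepV, List.map_map]
    rw [← List.sum_map_mul_left, ← List.sum_map_add]
    congr 1
    apply List.map_congr_left
    intro w' _
    simp only [Function.comp]
    by_cases hI : IL w' p.1 = true
    · rw [if_pos hI, List.filter_cons_of_pos (by simpa using hI)]
      simp only [List.map_cons, List.sum_cons]
      ring
    · rw [if_neg hI, List.filter_cons_of_neg (by simpa using hI)]
      ring

theorem stepV_mem (L m' B : ℕ) (v : List (List ℕ × ℕ)) :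
    ∀ p ∈ stepV (partsB L m' B) v, p.1.length = L ∧ p.1.sum = m' ∧ Dec p.1 := by
  intro p hp
  unfold stepV at hp
  rw [List.mem_map] at hp
  obtain ⟨w', hw', rfl⟩ := hp
  rw [mem_partsB] at hw'
  exact ⟨hw'.1, hw'.2.1, hw'.2.2.1⟩

end Pool.Agent.Y363.SchurList
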