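import Mathlib
import Pool.Agent.Y363.TrS

set_option autoImplicit false

namespace Pool.Agent.Y363.SnpData

open Pool.Agent.Y363.SchurList

def hadj : List ℕ := [3022, 2005, 3555, 833, 1218, 2436, 927, 1399, 2287, 75, 150, 293]

def stabL : List ℕ := [0, 1, 2, 3, 4, 5, 6, 7, 8, 9, 16, 18, 32, 36, 64, 65, 66, 67, 68, 69, 70, 71, 72, 73, 80, 82, 128, 129, 130, 131, 132, 133, 134, 135, 144, 146, 160, 164, 192, 193, 194, 195, 196, 197, 198, 199, 208, 210, 256, 257, 258, 259, 260, 261, 262, 263, 264, 265, 288, 292, 320, 321, 322, 323, 324, 325, 326, 327, 328, 329, 384, 385, 386, 387, 388, 389, 390, 391, 416, 420, 448, 449, 450, 451, 452, 453, 454, 455, 512, 513, 514, 515, 520, 521, 576,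 577, 578, 579, 584, 585, 1024, 1026, 1028, 1030, 1040, 1042, 1152, 1154, 1156, 1158, 1168, 1170, 2048, 2049, 2052, 2053, 2080, 2084, 2304, 2305, 2308, 2309, 2336, 2340]

def tabs : List (ℕ × List (ℕ × List ℕ)) := [
  (1, [(0, [1]), (1, [3, 5, 9, 65, 129, 257, 513, 2049]), (2, [7, 67, 69, 73, 131, 133, 193, 259, 261, 265, 321, 385, 515, 521, 577, 2053, 2305]), (3, [71, 135, 195, 197, 263, 323, 325, 329, 387, 389, 449, 579, 585, 2309]), (4, [199, 327, 391, 451, 453]), (5, [455])]),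
  (2, [(0, [2]), (1, [6, 18, 66, 130, 258, 514, 1026]), (2, [70, 82, 134, 146, 194, 262, 322, 386, 578, 1030, 1042, 1154]), (3, [198, 210, 326, 390, 450, 1158, 1170]), (4, [454])]),
  (4, [(0, [4]), (1, [36, 68, 132, 260, 1028, 2052]), (2, [164, 196, 292, 324, 388, 1156, 2084, 2308]), (3, [420, 452, 2340])]),
  (8, [(0, [8]), (1, [72, 264, 520]), (2, [328, 584])]),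
  (16, [(0, [16]), (1, [80, 144, 1040]), (2, [208, 1168])]),
  (32, [(0, [32]), (1, [160, 288, 2080]), (2, [416, 2336])]),
  (64, [(0, [64]), (1, [192, 320, 576]), (2, [448])]),
  (128, [(0, [128]), (1, [384, 1152])]),
  (256, [(0, [256]), (1, [2304])]),
  (512, [(0, [512])]),
  (1024, [(0, [1024])]),
  (2048, [(0, [2048])])]

def tabA : List (List ℕ × ℕ) := [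
  ([0, 0, 0, 0, 0, 0, 0, 0, 0, 0, 0, 1], 0),
  ([1, 0, 0, 0, 0, 0, 0, 0, 0, 0, 1, 0], 0),
  ([0, 1, 0, 0, 0, 0, 0, 0, 0, 1, 0, 0], 0),
  ([2, 0, 0, 0, 0, 0, 0, 0, 0, 1, 0, 0], 0),
  ([0, 0, 1, 0, 0, 0, 0, 0, 1, 0, 0, 0], 0),
  ([1, 1, 0, 0, 0, 0, 0, 0, 1, 0, 0, 0], 0),
  ([3, 0, 0, 0, 0, 0, 0, 0, 1, 0, 0, 0], 0),
  ([0, 0, 0, 1, 0, 0, 0, 1, 0, 0, 0, 0], 0),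
  ([1, 0, 1, 0, 0, 0, 0, 1, 0, 0, 0, 0], 0),
  ([0, 2, 0, 0, 0, 0, 0, 1, 0, 0, 0, 0], 0),
  ([2, 1, 0, 0, 0, 0, 0, 1, 0, 0, 0, 0], 0),
  ([4, 0, 0, 0, 0, 0, 0, 1, 0, 0, 0, 0], 0),
  ([0, 0, 0, 0, 1, 0, 1, 0, 0, 0, 0, 0], 0),
  ([1, 0, 0, 1, 0, 0, 1, 0, 0, 0, 0, 0], 0),
  ([0, 1, 1, 0, 0, 0, 1, 0, 0, 0, 0, 0], 0),
  ([2, 0, 1, 0, 0, 0, 1, 0, 0, 0, 0, 0], 0),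
  ([1, 2, 0, 0, 0, 0, 1, 0, 0, 0, 0, 0], 0),
  ([3, 1, 0, 0, 0, 0, 1, 0, 0, 0, 0, 0], 0),
  ([5, 0, 0, 0, 0, 0, 1, 0, 0, 0, 0, 0], 0),
  ([0, 0, 0, 0, 0, 2, 0, 0, 0, 0, 0, 0], 0),
  ([1, 0, 0, 0, 1, 1, 0, 0, 0, 0, 0, 0], 0),
  ([0, 1, 0, 1, 0, 1, 0, 0, 0, 0, 0, 0], 0),
  ([2, 0, 0, 1, 0, 1, 0, 0, 0, 0, 0, 0], 0),
  ([0, 0, 2, 0, 0, 1, 0, 0, 0, 0, 0, 0], 0),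
  ([1, 1, 1, 0, 0, 1, 0, 0, 0, 0, 0, 0], 0),
  ([3, 0, 1, 0, 0, 1, 0, 0, 0, 0, 0, 0], 0),
  ([0, 3, 0, 0, 0, 1, 0, 0, 0, 0, 0, 0], 6),
  ([2, 2, 0, 0, 0, 1, 0, 0, 0, 0, 0, 0], 12),
  ([4, 1, 0, 0, 0, 1, 0, 0, 0, 0, 0, 0], 72),
  ([6, 0, 0, 0, 0, 1, 0, 0, 0, 0, 0, 0], 720),
  ([0, 1, 0, 0, 2, 0, 0, 0, 0, 0, 0, 0], 0),
  ([2, 0, 0, 0, 2, 0, 0, 0, 0, 0, 0, 0], 0),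
  ([0, 0, 1, 1, 1, 0, 0, 0, 0, 0, 0, 0], 0),
  ([1, 1, 0, 1, 1, 0, 0, 0, 0, 0, 0, 0], 0),
  ([3, 0, 0, 1, 1, 0, 0, 0, 0, 0, 0, 0], 0),
  ([1, 0, 2, 0, 1, 0, 0, 0, 0, 0, 0, 0], 0),
  ([0, 2, 1, 0, 1, 0, 0, 0, 0, 0, 0, 0], 12),
  ([2, 1, 1, 0, 1, 0, 0, 0, 0, 0, 0, 0], 24),
  ([4, 0, 1, 0, 1, 0, 0, 0, 0, 0, 0, 0], 144),
  ([1, 3, 0, 0, 1, 0, 0, 0, 0, 0, 0, 0], 144),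
  ([3, 2, 0, 0, 1, 0, 0, 0, 0, 0, 0, 0], 648),
  ([5, 1, 0, 0, 1, 0, 0, 0, 0, 0, 0, 0], 4320),
  ([7, 0, 0, 0, 1, 0, 0, 0, 0, 0, 0, 0], 30240),
  ([0, 0, 0, 3, 0, 0, 0, 0, 0, 0, 0, 0], 6),
  ([1, 0, 1, 2, 0, 0, 0, 0, 0, 0, 0, 0], 36),
  ([0, 2, 0, 2, 0, 0, 0, 0, 0, 0, 0, 0], 48),
  ([2, 1, 0, 2, 0, 0, 0, 0, 0, 0, 0, 0], 180),
  ([4, 0, 0, 2, 0, 0, 0, 0, 0, 0, 0, 0], 720),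
  ([0, 1, 2, 1, 0, 0, 0, 0, 0, 0, 0, 0], 120),
  ([2, 0, 2, 1, 0, 0, 0, 0, 0, 0, 0, 0], 468),
  ([1, 2, 1, 1, 0, 0, 0, 0, 0, 0, 0, 0], 996),
  ([3, 1, 1, 1, 0, 0, 0, 0, 0, 0, 0, 0], 4068),
  ([5, 0, 1, 1, 0, 0, 0, 0, 0, 0, 0, 0], 18000),
  ([0, 4, 0, 1, 0, 0, 0, 0, 0, 0, 0, 0], 2448),
  ([2, 3, 0, 1, 0, 0, 0, 0, 0, 0, 0, 0], 10044),
  ([4, 2, 0, 1, 0, 0, 0, 0, 0, 0, 0, 0], 44640),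
  ([6, 1, 0, 1, 0, 0, 0, 0, 0, 0, 0, 0], 207360),
  ([8, 0, 0, 1, 0, 0, 0, 0, 0, 0, 0, 0], 967680),
  ([0, 0, 4, 0, 0, 0, 0, 0, 0, 0, 0, 0], 336),
  ([1, 1, 3, 0, 0, 0, 0, 0, 0, 0, 0, 0], 2412),
  ([3, 0, 3, 0, 0, 0, 0, 0, 0, 0, 0, 0], 9720),
  ([0, 3, 2, 0, 0, 0, 0, 0, 0, 0, 0, 0], 5448),
  ([2, 2, 2, 0, 0, 0, 0, 0, 0, 0, 0, 0], 22416),
  ([4, 1, 2, 0, 0, 0, 0, 0, 0, 0, 0, 0], 95040),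
  ([6, 0, 2, 0, 0, 0, 0, 0, 0, 0, 0, 0], 407520),
  ([1, 4, 1, 0, 0, 0, 0, 0, 0, 0, 0, 0], 52848),
  ([3, 3, 1, 0, 0, 0, 0, 0, 0, 0, 0, 0], 222984),
  ([5, 2, 1, 0, 0, 0, 0, 0, 0, 0, 0, 0], 943200),
  ([7, 1, 1, 0, 0, 0, 0, 0, 0, 0, 0, 0], 3931200),
  ([9, 0, 1, 0, 0, 0, 0, 0, 0, 0, 0, 0], 15966720),
  ([0, 6, 0, 0, 0, 0, 0, 0, 0, 0, 0, 0], 126720),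
  ([2, 5, 0, 0, 0, 0, 0, 0, 0, 0, 0, 0], 519840),
  ([4, 4, 0, 0, 0, 0, 0, 0, 0, 0, 0, 0], 2151360),
  ([6, 3, 0, 0, 0, 0, 0, 0, 0, 0, 0, 0], 8726400),
  ([8, 2, 0, 0, 0, 0, 0, 0, 0, 0, 0, 0], 34352640),
  ([10, 1, 0, 0, 0, 0, 0, 0, 0, 0, 0, 0], 130636800),
  ([12, 0, 0, 0, 0, 0, 0, 0, 0, 0, 0, 0], 479001600)]

def cL : List (List ℕ × ℕ) := [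
  ([6, 2, 2, 2, 0, 0, 0, 0, 0, 0, 0, 0], 6),
  ([6, 2, 2, 1, 1, 0, 0, 0, 0, 0, 0, 0], 6),
  ([6, 2, 1, 1, 1, 1, 0, 0, 0, 0, 0, 0], 42),
  ([6, 1, 1, 1, 1, 1, 1, 0, 0, 0, 0, 0], 426),
  ([5, 3, 2, 2, 0, 0, 0, 0, 0, 0, 0, 0], 6),
  ([5, 3, 2, 1, 1, 0, 0, 0, 0, 0, 0, 0], 6),
  ([5, 3, 1, 1, 1, 1, 0, 0, 0, 0, 0, 0], 42),
  ([5, 2, 2, 2, 1, 0, 0, 0, 0, 0, 0, 0], 72),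
  ([5, 2, 2, 1, 1, 1, 0, 0, 0, 0, 0, 0], 216),
  ([5, 2, 1, 1, 1, 1, 1, 0, 0, 0, 0, 0], 1656),
  ([5, 1, 1, 1, 1, 1, 1, 1, 0, 0, 0, 0], 10266),
  ([4, 4, 4, 0, 0, 0, 0, 0, 0, 0, 0, 0], 6),
  ([4, 4, 3, 1, 0, 0, 0, 0, 0, 0, 0, 0], 30),
  ([4, 4, 2, 1, 1, 0, 0, 0, 0, 0, 0, 0], 90),
  ([4, 4, 1, 1, 1, 1, 0, 0, 0, 0, 0, 0], 210),
  ([4, 3, 3, 2, 0, 0, 0, 0, 0, 0, 0, 0], 36),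
  ([4, 3, 3, 1, 1, 0, 0, 0, 0, 0, 0, 0], 174),
  ([4, 3, 2, 2, 1, 0, 0, 0, 0, 0, 0, 0], 234),
  ([4, 3, 2, 1, 1, 1, 0, 0, 0, 0, 0, 0], 1176),
  ([4, 3, 1, 1, 1, 1, 1, 0, 0, 0, 0, 0], 3348),
  ([4, 2, 2, 2, 2, 0, 0, 0, 0, 0, 0, 0], 288),
  ([4, 2, 2, 2, 1, 1, 0, 0, 0, 0, 0, 0], 1542),
  ([4, 2, 2, 1, 1, 1, 1, 0, 0, 0, 0, 0], 7626),
  ([4, 2, 1, 1, 1, 1, 1, 1, 0, 0, 0, 0], 34086),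
  ([4, 1, 1, 1, 1, 1, 1, 1, 1, 0, 0, 0], 116748),
  ([3, 3, 3, 3, 0, 0, 0, 0, 0, 0, 0, 0], 108),
  ([3, 3, 3, 2, 1, 0, 0, 0, 0, 0, 0, 0], 336),
  ([3, 3, 3, 1, 1, 1, 0, 0, 0, 0, 0, 0], 1302),
  ([3, 3, 2, 2, 2, 0, 0, 0, 0, 0, 0, 0], 270),
  ([3, 3, 2, 2, 1, 1, 0, 0, 0, 0, 0, 0], 2364),
  ([3, 3, 2, 1, 1, 1, 1, 0, 0, 0, 0, 0], 11358),
  ([3, 3, 1, 1, 1, 1, 1, 1, 0, 0, 0, 0], 29442),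
  ([3, 2, 2, 2, 2, 1, 0, 0, 0, 0, 0, 0], 2514),
  ([3, 2, 2, 2, 1, 1, 1, 0, 0, 0, 0, 0], 14928),
  ([3, 2, 2, 1, 1, 1, 1, 1, 0, 0, 0, 0], 74640),
  ([3, 2, 1, 1, 1, 1, 1, 1, 1, 0, 0, 0], 269424),
  ([3, 1, 1, 1, 1, 1, 1, 1, 1, 1, 0, 0], 689940),
  ([2, 2, 2, 2, 2, 2, 0, 0, 0, 0, 0, 0], 3672),
  ([2, 2, 2, 2, 2, 1, 1, 0, 0, 0, 0, 0], 7434),
  ([2, 2, 2, 2, 1, 1, 1, 1, 0, 0, 0, 0], 47778),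
  ([2, 2, 2, 1, 1, 1, 1, 1, 1, 0, 0, 0], 221562),
  ([2, 2, 1, 1, 1, 1, 1, 1, 1, 1, 0, 0], 768114),
  ([2, 1, 1, 1, 1, 1, 1, 1, 1, 1, 1, 0], 1992258),
  ([1, 1, 1, 1, 1, 1, 1, 1, 1, 1, 1, 1], 2208618)]

def PT : List (List (List ℕ)) := [
  [[0, 0, 0, 0, 0, 0, 0, 0, 0, 0, 0, 0]],
  [[1, 0, 0, 0, 0, 0, 0, 0, 0, 0, 0, 0]],
  [[1, 1, 0, 0, 0, 0, 0, 0, 0, 0, 0, 0], [2, 0, 0, 0, 0, 0, 0, 0, 0, 0, 0, 0]],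
  [[1, 1, 1, 0, 0, 0, 0, 0, 0, 0, 0, 0], [2, 1, 0, 0, 0, 0, 0, 0, 0, 0, 0, 0], [3, 0, 0, 0, 0, 0, 0, 0, 0, 0, 0, 0]],
  [[1, 1, 1, 1, 0, 0, 0, 0, 0, 0, 0, 0], [2, 1, 1, 0, 0, 0, 0, 0, 0, 0, 0, 0], [2, 2, 0, 0, 0, 0, 0, 0, 0, 0, 0, 0], [3, 1, 0, 0, 0, 0, 0, 0, 0, 0, 0, 0], [4, 0, 0, 0, 0, 0, 0, 0, 0, 0, 0, 0]],
  [[1, 1, 1, 1, 1, 0, 0, 0, 0, 0, 0, 0], [2, 1, 1, 1, 0, 0, 0, 0, 0, 0, 0, 0], [2, 2, 1, 0, 0, 0, 0, 0, 0, 0, 0, 0], [3, 1, 1, 0, 0, 0, 0, 0, 0, 0, 0, 0], [3, 2, 0, 0, 0, 0, 0, 0, 0, 0, 0, 0], [4, 1, 0, 0, 0, 0, 0, 0, 0, 0, 0, 0], [5, 0, 0, 0, 0, 0, 0, 0, 0, 0, 0, 0]],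
  [[1, 1, 1, 1, 1, 1, 0, 0, 0, 0, 0, 0], [2, 1, 1, 1, 1, 0, 0, 0, 0, 0, 0, 0], [2, 2, 1, 1, 0, 0, 0, 0, 0, 0, 0, 0], [2, 2, 2, 0, 0, 0, 0, 0, 0, 0, 0, 0], [3, 1, 1, 1, 0, 0, 0, 0, 0, 0, 0, 0], [3, 2, 1, 0, 0, 0, 0, 0, 0, 0, 0, 0], [3, 3, 0, 0, 0, 0, 0, 0, 0, 0, 0, 0], [4, 1, 1, 0, 0, 0, 0, 0, 0, 0, 0, 0], [4, 2, 0, 0, 0, 0, 0, 0, 0, 0, 0, 0], [5, 1, 0, 0, 0, 0, 0, 0, 0, 0, 0, 0], [6, 0, 0, 0, 0, 0, 0, 0, 0, 0, 0, 0]],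
  [[1, 1, 1, 1, 1, 1, 1, 0, 0, 0, 0, 0], [2, 1, 1, 1, 1, 1, 0, 0, 0, 0, 0, 0], [2, 2, 1, 1, 1, 0, 0, 0, 0, 0, 0, 0], [2, 2, 2, 1, 0, 0, 0, 0, 0, 0, 0, 0], [3, 1, 1, 1, 1, 0, 0, 0, 0, 0, 0, 0], [3, 2, 1, 1, 0, 0, 0, 0, 0, 0, 0, 0], [3, 2, 2, 0, 0, 0, 0, 0, 0, 0, 0, 0], [3, 3, 1, 0, 0, 0, 0, 0, 0, 0, 0, 0], [4, 1, 1, 1, 0, 0, 0, 0, 0, 0, 0, 0], [4, 2, 1, 0, 0, 0, 0, 0, 0, 0, 0, 0], [4, 3, 0, 0, 0, 0, 0, 0, 0, 0, 0, 0], [5, 1, 1, 0, 0, 0, 0, 0, 0, 0, 0, 0], [5, 2, 0, 0, 0, 0, 0, 0, 0, 0, 0, 0], [6, 1, 0, 0, 0, 0, 0, 0, 0, 0, 0, 0], [7, 0, 0, 0, 0, 0, 0, 0, 0, 0, 0, 0]],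
  [[1, 1, 1, 1, 1, 1, 1, 1, 0, 0, 0, 0], [2, 1, 1, 1, 1, 1, 1, 0, 0, 0, 0, 0], [2, 2, 1, 1, 1, 1, 0, 0, 0, 0, 0, 0], [2, 2, 2, 1, 1, 0, 0, 0, 0, 0, 0, 0], [2, 2, 2, 2, 0, 0, 0, 0, 0, 0, 0, 0], [3, 1, 1, 1, 1, 1, 0, 0, 0, 0, 0, 0], [3, 2, 1, 1, 1, 0, 0, 0, 0, 0, 0, 0], [3, 2, 2, 1, 0, 0, 0, 0, 0, 0, 0, 0], [3, 3, 1, 1, 0, 0, 0, 0, 0, 0, 0, 0], [3, 3, 2, 0, 0, 0, 0, 0, 0, 0, 0, 0], [4, 1, 1, 1, 1, 0, 0, 0, 0, 0, 0, 0], [4, 2, 1, 1, 0, 0, 0, 0, 0, 0, 0, 0], [4, 2, 2, 0, 0, 0, 0, 0, 0, 0, 0, 0], [4, 3, 1, 0, 0, 0, 0, 0, 0, 0, 0, 0], [4, 4, 0, 0, 0, 0, 0, 0, 0, 0, 0, 0], [5, 1, 1, 1, 0, 0, 0, 0, 0, 0, 0, 0], [5, 2, 1, 0, 0, 0, 0, 0, 0, 0, 0, 0], [5, 3, 0, 0, 0, 0, 0, 0, 0, 0, 0, 0], [6,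 1, 1, 0, 0, 0, 0, 0, 0, 0, 0, 0], [6, 2, 0, 0, 0, 0, 0, 0, 0, 0, 0, 0], [7, 1, 0, 0, 0, 0, 0, 0, 0, 0, 0, 0], [8, 0, 0, 0, 0, 0, 0, 0, 0, 0, 0, 0]],
  [[1, 1, 1, 1, 1, 1, 1, 1, 1, 0, 0, 0], [2, 1, 1, 1, 1, 1, 1, 1, 0, 0, 0, 0], [2, 2, 1, 1, 1, 1, 1, 0, 0, 0, 0, 0], [2, 2, 2, 1, 1, 1, 0, 0, 0, 0, 0, 0], [2, 2, 2, 2, 1, 0, 0, 0, 0, 0, 0, 0], [3, 1, 1, 1, 1, 1, 1, 0, 0, 0, 0, 0], [3, 2, 1, 1, 1, 1, 0, 0, 0, 0, 0, 0], [3, 2, 2, 1, 1, 0, 0, 0, 0, 0, 0, 0], [3, 2, 2, 2, 0, 0, 0, 0, 0, 0, 0, 0], [3, 3, 1, 1, 1, 0, 0, 0, 0, 0, 0, 0], [3, 3, 2, 1, 0, 0, 0, 0, 0, 0, 0, 0], [3, 3, 3, 0, 0, 0, 0, 0, 0, 0, 0, 0], [4, 1, 1, 1, 1, 1, 0, 0, 0, 0, 0, 0], [4, 2, 1, 1, 1, 0, 0, 0, 0, 0, 0, 0], [4,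 2, 2, 1, 0, 0, 0, 0, 0, 0, 0, 0], [4, 3, 1, 1, 0, 0, 0, 0, 0, 0, 0, 0], [4, 3, 2, 0, 0, 0, 0, 0, 0, 0, 0, 0], [4, 4, 1, 0, 0, 0, 0, 0, 0, 0, 0, 0], [5, 1, 1, 1, 1, 0, 0, 0, 0, 0, 0, 0], [5, 2, 1, 1, 0, 0, 0, 0, 0, 0, 0, 0], [5, 2, 2, 0, 0, 0, 0, 0, 0, 0, 0, 0], [5, 3, 1, 0, 0, 0, 0, 0, 0, 0, 0, 0], [5, 4, 0, 0, 0, 0, 0, 0, 0, 0, 0, 0], [6, 1, 1, 1, 0, 0, 0, 0, 0, 0, 0, 0], [6, 2, 1, 0, 0, 0, 0, 0, 0, 0, 0, 0], [6, 3, 0, 0, 0, 0, 0, 0, 0, 0, 0, 0], [7, 1, 1, 0, 0, 0, 0, 0, 0, 0, 0, 0], [7, 2, 0, 0, 0, 0, 0, 0, 0, 0, 0, 0], [8, 1, 0, 0, 0, 0, 0, 0, 0, 0, 0, 0], [9, 0, 0, 0, 0, 0, 0, 0, 0, 0, 0, 0]],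
  [[1, 1, 1, 1, 1, 1, 1, 1, 1, 1, 0, 0], [2, 1, 1, 1, 1, 1, 1, 1, 1, 0, 0, 0], [2, 2, 1, 1, 1, 1, 1, 1, 0, 0, 0, 0], [2, 2, 2, 1, 1, 1, 1, 0, 0, 0, 0, 0], [2, 2, 2, 2, 1, 1, 0, 0, 0, 0, 0, 0], [2, 2, 2, 2, 2, 0, 0, 0, 0, 0, 0, 0], [3, 1, 1, 1, 1, 1, 1, 1, 0, 0, 0, 0], [3, 2, 1, 1, 1, 1, 1, 0, 0, 0, 0, 0], [3, 2, 2, 1, 1, 1, 0, 0, 0, 0, 0, 0], [3, 2, 2, 2, 1, 0, 0, 0, 0, 0, 0, 0], [3, 3, 1, 1, 1, 1, 0, 0, 0, 0, 0, 0], [3, 3, 2, 1, 1, 0, 0, 0, 0, 0, 0, 0], [3, 3, 2, 2, 0, 0, 0, 0, 0, 0, 0, 0], [3, 3, 3, 1, 0, 0, 0, 0, 0, 0, 0, 0], [4, 1, 1, 1, 1, 1, 1, 0, 0, 0, 0, 0], [4, 2, 1, 1, 1, 1, 0, 0, 0, 0, 0, 0], [4, 2, 2, 1, 1, 0, 0, 0, 0, 0, 0, 0], [4, 2, 2, 2, 0, 0, 0, 0, 0, 0, 0, 0], [4,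 3, 1, 1, 1, 0, 0, 0, 0, 0, 0, 0], [4, 3, 2, 1, 0, 0, 0, 0, 0, 0, 0, 0], [4, 3, 3, 0, 0, 0, 0, 0, 0, 0, 0, 0], [4, 4, 1, 1, 0, 0, 0, 0, 0, 0, 0, 0], [4, 4, 2, 0, 0, 0, 0, 0, 0, 0, 0, 0], [5, 1, 1, 1, 1, 1, 0, 0, 0, 0, 0, 0], [5, 2, 1, 1, 1, 0, 0, 0, 0, 0, 0, 0], [5, 2, 2, 1, 0, 0, 0, 0, 0, 0, 0, 0], [5, 3, 1, 1, 0, 0, 0, 0, 0, 0, 0, 0], [5, 3, 2, 0, 0, 0, 0, 0, 0, 0, 0, 0], [5, 4, 1, 0, 0, 0, 0, 0, 0, 0, 0, 0], [5, 5, 0, 0, 0, 0, 0, 0, 0, 0, 0, 0], [6, 1, 1, 1, 1, 0, 0, 0, 0, 0, 0, 0], [6, 2, 1, 1, 0, 0, 0, 0, 0, 0, 0, 0], [6, 2, 2, 0, 0, 0, 0, 0, 0, 0, 0, 0], [6, 3, 1, 0, 0, 0, 0, 0, 0, 0, 0, 0], [6, 4, 0, 0, 0, 0, 0, 0, 0, 0, 0, 0], [7, 1, 1, 1, 0, 0, 0, 0, 0, 0, 0, 0], [7, 2, 1,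 0, 0, 0, 0, 0, 0, 0, 0, 0], [7, 3, 0, 0, 0, 0, 0, 0, 0, 0, 0, 0], [8, 1, 1, 0, 0, 0, 0, 0, 0, 0, 0, 0], [8, 2, 0, 0, 0, 0, 0, 0, 0, 0, 0, 0], [9, 1, 0, 0, 0, 0, 0, 0, 0, 0, 0, 0], [10, 0, 0, 0, 0, 0, 0, 0, 0, 0, 0, 0]],
  [[1, 1, 1, 1, 1, 1, 1, 1, 1, 1, 1, 0], [2, 1, 1, 1, 1, 1, 1, 1, 1, 1, 0, 0], [2, 2, 1, 1, 1, 1, 1, 1, 1, 0, 0, 0], [2, 2, 2, 1, 1, 1, 1, 1, 0, 0, 0, 0], [2, 2, 2, 2, 1, 1, 1, 0, 0, 0, 0, 0], [2, 2, 2, 2, 2, 1, 0, 0, 0, 0, 0, 0], [3, 1, 1, 1, 1, 1, 1, 1, 1, 0, 0, 0], [3, 2, 1, 1, 1, 1, 1, 1, 0, 0, 0, 0], [3, 2, 2, 1, 1, 1, 1, 0, 0, 0, 0, 0], [3, 2, 2, 2, 1, 1, 0, 0, 0, 0, 0, 0], [3, 2, 2, 2, 2, 0, 0, 0, 0, 0, 0, 0], [3, 3, 1, 1, 1, 1, 1, 0, 0, 0, 0, 0], [3, 3, 2,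 1, 1, 1, 0, 0, 0, 0, 0, 0], [3, 3, 2, 2, 1, 0, 0, 0, 0, 0, 0, 0], [3, 3, 3, 1, 1, 0, 0, 0, 0, 0, 0, 0], [3, 3, 3, 2, 0, 0, 0, 0, 0, 0, 0, 0], [4, 1, 1, 1, 1, 1, 1, 1, 0, 0, 0, 0], [4, 2, 1, 1, 1, 1, 1, 0, 0, 0, 0, 0], [4, 2, 2, 1, 1, 1, 0, 0, 0, 0, 0, 0], [4, 2, 2, 2, 1, 0, 0, 0, 0, 0, 0, 0], [4, 3, 1, 1, 1, 1, 0, 0, 0, 0, 0, 0], [4, 3, 2, 1, 1, 0, 0, 0, 0, 0, 0, 0], [4, 3, 2, 2, 0, 0, 0, 0, 0, 0, 0, 0], [4, 3, 3, 1, 0, 0, 0, 0, 0, 0, 0, 0], [4, 4, 1, 1, 1, 0, 0, 0, 0, 0, 0, 0], [4, 4, 2, 1, 0, 0, 0, 0, 0, 0, 0, 0], [4, 4, 3, 0, 0, 0, 0, 0, 0, 0, 0, 0], [5, 1, 1, 1, 1, 1, 1, 0, 0, 0, 0, 0], [5, 2, 1, 1, 1, 1, 0, 0, 0, 0, 0, 0], [5, 2, 2, 1, 1, 0, 0, 0, 0, 0, 0, 0], [5, 2, 2, 2, 0,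 0, 0, 0, 0, 0, 0, 0], [5, 3, 1, 1, 1, 0, 0, 0, 0, 0, 0, 0], [5, 3, 2, 1, 0, 0, 0, 0, 0, 0, 0, 0], [5, 3, 3, 0, 0, 0, 0, 0, 0, 0, 0, 0], [5, 4, 1, 1, 0, 0, 0, 0, 0, 0, 0, 0], [5, 4, 2, 0, 0, 0, 0, 0, 0, 0, 0, 0], [5, 5, 1, 0, 0, 0, 0, 0, 0, 0, 0, 0], [6, 1, 1, 1, 1, 1, 0, 0, 0, 0, 0, 0], [6, 2, 1, 1, 1, 0, 0, 0, 0, 0, 0, 0], [6, 2, 2, 1, 0, 0, 0, 0, 0, 0, 0, 0], [6, 3, 1, 1, 0, 0, 0, 0, 0, 0, 0, 0], [6, 3, 2, 0, 0, 0, 0, 0, 0, 0, 0, 0], [6, 4, 1, 0, 0, 0, 0, 0, 0, 0, 0, 0], [6, 5, 0, 0, 0, 0, 0, 0, 0, 0, 0, 0], [7, 1, 1, 1, 1, 0, 0, 0, 0, 0, 0, 0], [7, 2, 1, 1, 0, 0, 0, 0, 0, 0, 0, 0], [7, 2, 2, 0, 0, 0, 0, 0, 0, 0, 0, 0], [7, 3, 1, 0, 0, 0, 0, 0, 0, 0, 0, 0], [7, 4, 0, 0, 0, 0, 0,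 0, 0, 0, 0, 0], [8, 1, 1, 1, 0, 0, 0, 0, 0, 0, 0, 0], [8, 2, 1, 0, 0, 0, 0, 0, 0, 0, 0, 0], [8, 3, 0, 0, 0, 0, 0, 0, 0, 0, 0, 0], [9, 1, 1, 0, 0, 0, 0, 0, 0, 0, 0, 0], [9, 2, 0, 0, 0, 0, 0, 0, 0, 0, 0, 0], [10, 1, 0, 0, 0, 0, 0, 0, 0, 0, 0, 0], [11, 0, 0, 0, 0, 0, 0, 0, 0, 0, 0, 0]],
  [[1, 1, 1, 1, 1, 1, 1, 1, 1, 1, 1, 1], [2, 1, 1, 1, 1, 1, 1, 1, 1, 1, 1, 0], [2, 2, 1, 1, 1, 1, 1, 1, 1, 1, 0, 0], [2, 2, 2, 1, 1, 1, 1, 1, 1, 0, 0, 0], [2, 2, 2, 2, 1, 1, 1, 1, 0, 0, 0, 0], [2, 2, 2, 2, 2, 1, 1, 0, 0, 0, 0, 0], [2, 2, 2, 2, 2, 2, 0, 0, 0, 0, 0, 0], [3, 1, 1, 1, 1, 1, 1, 1, 1, 1, 0, 0], [3, 2, 1, 1, 1, 1, 1, 1, 1, 0, 0, 0], [3, 2, 2, 1, 1, 1, 1, 1, 0, 0, 0, 0], [3, 2, 2, 2, 1, 1, 1,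 0, 0, 0, 0, 0], [3, 2, 2, 2, 2, 1, 0, 0, 0, 0, 0, 0], [3, 3, 1, 1, 1, 1, 1, 1, 0, 0, 0, 0], [3, 3, 2, 1, 1, 1, 1, 0, 0, 0, 0, 0], [3, 3, 2, 2, 1, 1, 0, 0, 0, 0, 0, 0], [3, 3, 2, 2, 2, 0, 0, 0, 0, 0, 0, 0], [3, 3, 3, 1, 1, 1, 0, 0, 0, 0, 0, 0], [3, 3, 3, 2, 1, 0, 0, 0, 0, 0, 0, 0], [3, 3, 3, 3, 0, 0, 0, 0, 0, 0, 0, 0], [4, 1, 1, 1, 1, 1, 1, 1, 1, 0, 0, 0], [4, 2, 1, 1, 1, 1, 1, 1, 0, 0, 0, 0], [4, 2, 2, 1, 1, 1, 1, 0, 0, 0, 0, 0], [4, 2, 2, 2, 1, 1, 0, 0, 0, 0, 0, 0], [4, 2, 2, 2, 2, 0, 0, 0, 0, 0, 0, 0], [4, 3, 1, 1, 1, 1, 1, 0, 0, 0, 0, 0], [4, 3, 2, 1, 1, 1, 0, 0, 0, 0, 0, 0], [4, 3, 2, 2, 1, 0, 0, 0, 0, 0, 0, 0], [4, 3, 3, 1, 1, 0, 0, 0, 0, 0, 0, 0], [4, 3, 3, 2, 0, 0, 0, 0, 0,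 0, 0, 0], [4, 4, 1, 1, 1, 1, 0, 0, 0, 0, 0, 0], [4, 4, 2, 1, 1, 0, 0, 0, 0, 0, 0, 0], [4, 4, 2, 2, 0, 0, 0, 0, 0, 0, 0, 0], [4, 4, 3, 1, 0, 0, 0, 0, 0, 0, 0, 0], [4, 4, 4, 0, 0, 0, 0, 0, 0, 0, 0, 0], [5, 1, 1, 1, 1, 1, 1, 1, 0, 0, 0, 0], [5, 2, 1, 1, 1, 1, 1, 0, 0, 0, 0, 0], [5, 2, 2, 1, 1, 1, 0, 0, 0, 0, 0, 0], [5, 2, 2, 2, 1, 0, 0, 0, 0, 0, 0, 0], [5, 3, 1, 1, 1, 1, 0, 0, 0, 0, 0, 0], [5, 3, 2, 1, 1, 0, 0, 0, 0, 0, 0, 0], [5, 3, 2, 2, 0, 0, 0, 0, 0, 0, 0, 0], [5, 3, 3, 1, 0, 0, 0, 0, 0, 0, 0, 0], [5, 4, 1, 1, 1, 0, 0, 0, 0, 0, 0, 0], [5, 4, 2, 1, 0, 0, 0, 0, 0, 0, 0, 0], [5, 4, 3, 0, 0, 0, 0, 0, 0, 0, 0, 0], [5, 5, 1, 1, 0, 0, 0, 0, 0, 0, 0, 0], [5, 5, 2, 0, 0, 0, 0, 0, 0, 0, 0,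 0], [6, 1, 1, 1, 1, 1, 1, 0, 0, 0, 0, 0], [6, 2, 1, 1, 1, 1, 0, 0, 0, 0, 0, 0], [6, 2, 2, 1, 1, 0, 0, 0, 0, 0, 0, 0], [6, 2, 2, 2, 0, 0, 0, 0, 0, 0, 0, 0], [6, 3, 1, 1, 1, 0, 0, 0, 0, 0, 0, 0], [6, 3, 2, 1, 0, 0, 0, 0, 0, 0, 0, 0], [6, 3, 3, 0, 0, 0, 0, 0, 0, 0, 0, 0], [6, 4, 1, 1, 0, 0, 0, 0, 0, 0, 0, 0], [6, 4, 2, 0, 0, 0, 0, 0, 0, 0, 0, 0], [6, 5, 1, 0, 0, 0, 0, 0, 0, 0, 0, 0], [6, 6, 0, 0, 0, 0, 0, 0, 0, 0, 0, 0], [7, 1, 1, 1, 1, 1, 0, 0, 0, 0, 0, 0], [7, 2, 1, 1, 1, 0, 0, 0, 0, 0, 0, 0], [7, 2, 2, 1, 0, 0, 0, 0, 0, 0, 0, 0], [7, 3, 1, 1, 0, 0, 0, 0, 0, 0, 0, 0], [7, 3, 2, 0, 0, 0, 0, 0, 0, 0, 0, 0], [7, 4, 1, 0, 0, 0, 0, 0, 0, 0, 0, 0], [7, 5, 0, 0, 0, 0, 0, 0, 0, 0, 0, 0],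 [8, 1, 1, 1, 1, 0, 0, 0, 0, 0, 0, 0], [8, 2, 1, 1, 0, 0, 0, 0, 0, 0, 0, 0], [8, 2, 2, 0, 0, 0, 0, 0, 0, 0, 0, 0], [8, 3, 1, 0, 0, 0, 0, 0, 0, 0, 0, 0], [8, 4, 0, 0, 0, 0, 0, 0, 0, 0, 0, 0], [9, 1, 1, 1, 0, 0, 0, 0, 0, 0, 0, 0], [9, 2, 1, 0, 0, 0, 0, 0, 0, 0, 0, 0], [9, 3, 0, 0, 0, 0, 0, 0, 0, 0, 0, 0], [10, 1, 1, 0, 0, 0, 0, 0, 0, 0, 0, 0], [10, 2, 0, 0, 0, 0, 0, 0, 0, 0, 0, 0], [11, 1, 0, 0, 0, 0, 0, 0, 0, 0, 0, 0], [12, 0, 0, 0, 0, 0, 0, 0, 0, 0, 0, 0]]]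

/-- adjacency masks of the graph `G` (complement of `hadj`) -/
def gadj (i : ℕ) : ℕ := 4095 - hadj.getD i 0 - 2 ^ i

def stableB (S : ℕ) : Bool :=
  (List.range 12).all (fun i => cond (Nat.testBit S i) (Nat.beq (Nat.land S (gadj i)) 0) true)

def popc (S : ℕ) : ℕ := ((List.range 12).filter (fun i => Nat.testBit S i)).length

def lowb (v S : ℕ) : Bool := Nat.beq (Nat.land S (2 ^ (v + 1) - 1)) (2 ^ v)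

def entry (v : ℕ) : ℕ × List (ℕ × List ℕ) :=
  (2 ^ v, ((List.range 12).map (fun i => (i, stabL.filter (fun S => lowb v S && Nat.beq (popc S) (i + 1))))).filter
    (fun p => !p.2.isEmpty))

def tabsR : ℕ → ℕ → List (ℕ × List (ℕ × List ℕ))
  | _, 0 => []
  | v, n + 1 => entry v :: tabsR (v + 1) n

/-- counting machine on bit masks -/
def cnt : List (ℕ × List (ℕ × List ℕ)) → ℕ → List ℕ → ℕ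
  | [], W, ms => cond (Nat.beq W 0) (cond (ms.all (fun m => Nat.beq m 0)) 1 0) 0
  | (b, tv) :: rest, W, ms =>
    cond (Nat.beq (Nat.land W b) 0) (cnt rest W ms)
      ((tv.map (fun p => cond (Nat.beq (ms.getD p.1 0) 0) 0
        (ms.getD p.1 0 * (p.2.map (fun S =>
          cond (Nat.beq (Nat.land S W) S) (cnt rest (Nat.xor W S) (ms.set p.1 (ms.getD p.1 0 - 1))) 0)).sum))).sum)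

def eqL : List ℕ → List ℕ → Bool
  | [], [] => true
  | a :: s, b :: t => cond (Nat.beq a b) (eqL s t) false
  | [], _ :: _ => false
  | _ :: _, [] => false

def lookB : List (List ℕ × ℕ) → List ℕ → ℕ → Bool
  | [], _, _ => false
  | (k, a) :: t, ms, x => cond (eqL k ms) (Nat.beq a x) (lookB t ms x)

def chk : ℕ → ℕ → List (List ℕ × ℕ) → List ℕ → Bool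
  | 0, _, _, _ => false
  | _ + 1, 0, v, ms => lookB tabA ms (v.map Prod.snd).sum
  | f + 1, m + 1, v, ms => (List.range (m + 1)).all
      (fun i => chk f (m - i) (stepV (PT.getD (m - i) []) v) (ms.set i (ms.getD i 0 + 1)))


end Pool.Agent.Y363.SnpData
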