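import Mathlib
import Pool.Agent.Y363.Machine

set_option autoImplicit false

namespace Pool.Agent.Y363.Machine

open Finset

section

variable {V : Type*} [DecidableEq V]

theorem swap_sum (W : Finset V) (p q : Finset V → Prop) [DecidablePred p] [DecidablePred q]
    (f : Finset V → Finset V → ℕ) :
    ∑ S ∈ W.powerset with p S, ∑ T ∈ (W \ S).powerset with q T, f S T
      = ∑ T ∈ W.powerset with q T, ∑ S ∈ (W \ T).powerset with p S, f S T := by
  apply Finset.sum_comm'
  intro S T
  simp only [Finset.mem_filter, Finset.mem_powerset, Finset.subset_sdiff]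
  constructor
  · rintro ⟨⟨h1, h2⟩, ⟨h3, h4⟩, h5⟩
    exact ⟨⟨⟨h1, h4.symm⟩, h2⟩, h3, h5⟩
  · rintro ⟨⟨⟨h1, h4⟩, h2⟩, h3, h5⟩
    exact ⟨⟨h1, h2⟩, ⟨h3, h4.symm⟩, h5⟩

theorem trF_perm (st : Finset V → Bool) {l l' : List ℕ} (h : l.Perm l') (W : Finset V) :
    trF st W l = trF st W l' := by
  induction h generalizing W with
  | nil => rfl
  | cons x _ ih =>
    rw [trF_cons, trF_cons]
    exact Finset.sum_congr rfl (fun S _ => ih _)
  | swap x y l =>
    simp only [trF_cons]
    rw [swap_sum]
    apply Finset.sum_congr rfl
    intro T _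
    apply Finset.sum_congr rfl
    intro S _
    rw [sdiff_sdiff_comm]
  | trans _ _ ih1 ih2 => rw [ih1, ih2]

theorem trF_erase (st : Finset V → Bool) (v : V) (l : List ℕ) (W : Finset V) (hv : v ∈ W) :
    trF st W l = (l.map (fun a => ∑ T ∈ W.powerset with ((st T = true ∧ T.card = a) ∧ v ∈ T),
      trF st (W \ T) (l.erase a))).sum := by
  induction l generalizing W with
  | nil =>
    rw [trF_nil, if_neg (Finset.ne_empty_of_mem hv)]
    rfl
  | cons j l ih =>
    rw [trF_cons, ← Finset.sum_filter_add_sum_filter_not _ (fun S => v ∈ S)]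
    rw [List.map_cons, List.sum_cons, List.erase_cons_head]
    congr 1
    · rw [Finset.filter_filter]
    · rw [Finset.filter_filter]
      have e1 : ∀ S ∈ W.powerset.filter (fun S => (st S = true ∧ S.card = j) ∧ v ∉ S),
          trF st (W \ S) l = (l.map (fun a => ∑ T ∈ (W \ S).powerset with
            ((st T = true ∧ T.card = a) ∧ v ∈ T), trF st ((W \ S) \ T) (l.erase a))).sum := by
        intro S hS
        rw [Finset.mem_filter] at hS
        exact ih (W \ S) (Finset.mem_sdiff.2 ⟨hv, hS.2.2⟩)
      rw [Finset.sum_congr rfl e1]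
      have e2 : ∀ (s : Finset (Finset V)) (m : List ℕ) (F : Finset V → ℕ → ℕ),
          ∑ S ∈ s, (m.map (fun a => F S a)).sum = (m.map (fun a => ∑ S ∈ s, F S a)).sum := by
        intro s m F
        induction m with
        | nil => simp
        | cons a m ihm =>
          simp only [List.map_cons, List.sum_cons, Finset.sum_add_distrib, ihm]
      rw [e2]
      congr 1
      apply List.map_congr_left
      intro a ha
      rw [swap_sum W (fun S => (st S = true ∧ S.card = j) ∧ v ∉ S)
        (fun T => (st T = true ∧ T.card = a) ∧ v ∈ T)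
        (fun S T => trF st ((W \ S) \ T) (l.erase a))]
      apply Finset.sum_congr rfl
      intro T hT
      rw [Finset.mem_filter] at hT
      have hperm : ((j :: l).erase a).Perm (j :: l.erase a) := by
        by_cases hja : j = a
        · subst hja
          rw [List.erase_cons_head]
          exact List.perm_cons_erase ha
        · rw [List.erase_cons_tail (by simpa using hja)]
      rw [trF_perm st hperm, trF_cons]
      apply Finset.sum_congr
      · ext S
        simp only [Finset.mem_filter, Finset.mem_powerset]
        constructor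
        · rintro ⟨h1, h2, h3⟩
          exact ⟨h1, h2⟩
        · rintro ⟨h1, h2⟩
          refine ⟨h1, h2, ?_⟩
          intro hvS
          exact (Finset.mem_sdiff.1 (h1 hvS)).2 hT.2.2
      · intro S _
        rw [sdiff_sdiff_comm]

/-- traces ignore zero entries. -/
theorem trF_zero_cons (st : Finset V → Bool) (h0 : st ∅ = true) (W : Finset V) (l : List ℕ) :
    trF st W (0 :: l) = trF st W l := by
  rw [trF_cons]
  have : W.powerset.filter (fun S => st S = true ∧ S.card = 0) = {∅} := by
    ext S
    simp only [Finset.mem_filter, Finset.mem_powerset, Finset.mem_singleton, Finset.card_eq_zero]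
    constructor
    · rintro ⟨_, _, h⟩; exact h
    · rintro rfl; exact ⟨Finset.empty_subset _, h0, rfl⟩
  rw [this, Finset.sum_singleton, Finset.sdiff_empty]

theorem trF_filter (st : Finset V → Bool) (h0 : st ∅ = true) (W : Finset V) (l : List ℕ) :
    trF st W l = trF st W (l.filter (fun a => a ≠ 0)) := by
  induction l generalizing W with
  | nil => rfl
  | cons a l ih =>
    by_cases ha : a = 0
    · subst ha
      rw [trF_zero_cons st h0, ih]
      simp
    · rw [List.filter_cons_of_pos (by simpa using ha), trF_cons, trF_cons]
      exact Finset.sum_congr rfl (fun S _ => ih _)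

theorem trF_sum_ne (st : Finset V → Bool) (W : Finset V) (l : List ℕ) (h : l.sum ≠ W.card) :
    trF st W l = 0 := by
  induction l generalizing W with
  | nil =>
    rw [trF_nil, if_neg]
    rintro rfl
    simp at h
  | cons a l ih =>
    rw [trF_cons]
    apply Finset.sum_eq_zero
    intro S hS
    rw [Finset.mem_filter, Finset.mem_powerset] at hS
    apply ih
    rw [Finset.card_sdiff_of_subset hS.1]
    have := Finset.card_le_card hS.1
    rw [List.sum_cons] at h
    omega

end

end Pool.Agent.Y363.Machine
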