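import Pool.Agent.Y363.SnpTab
import Pool.Agent.Y363.TrF

set_option autoImplicit false

namespace Pool.Agent.Y363.SnpData

open Finset Pool.Agent.Y363.SchurList Pool.Agent.Y363.Machine

/-! ### the right-hand side check -/

theorem eqL_eq {a b : List ℕ} (h : eqL a b = true) : a = b := by
  induction a generalizing b with
  | nil =>
    cases b with
    | nil => rfl
    | cons => simp [eqL] at h
  | cons x a ih =>
    cases b with
    | nil => simp [eqL] at h
    | cons y b =>
      simp only [eqL] at h
      cases hxy : Nat.beq x y with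
      | false => rw [hxy] at h; simp at h
      | true =>
        rw [hxy] at h
        have := Nat.eq_of_beq_eq_true hxy
        rw [this, ih h]

theorem lookB_mem {t : List (List ℕ × ℕ)} {ms : List ℕ} {x : ℕ} (h : lookB t ms x = true) :
    (ms, x) ∈ t := by
  induction t with
  | nil => simp [lookB] at h
  | cons p t ih =>
    obtain ⟨k, a⟩ := p
    simp only [lookB] at h
    cases hk : eqL k ms with
    | false =>
      rw [hk] at h
      exact List.mem_cons_of_mem _ (ih h)
    | true =>
      rw [hk] at h
      have h1 := eqL_eq hk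
      have h2 := Nat.eq_of_beq_eq_true h
      rw [h1, h2]
      exact List.mem_cons_self

def msadd : List ℕ → List ℕ → List ℕ
  | ms, [] => ms
  | ms, j :: l => msadd (ms.set (j - 1) (ms.getD (j - 1) 0 + 1)) l

theorem RV_nil_of_sum_zero (v : List (List ℕ × ℕ)) (hv : ∀ p ∈ v, p.1.sum = 0) :
    RV v [] = (v.map Prod.snd).sum := by
  unfold RV
  congr 1
  apply List.map_congr_left
  intro p hp
  simp only [tr]
  rw [if_pos (hv p hp), mul_one]

theorem chk_sound (f m : ℕ) (hm : m ≤ 12) (v : List (List ℕ × ℕ)) (ms : List ℕ)
    (hv : ∀ p ∈ v, p.1.length = 12 ∧ p.1.sum = m ∧ Dec p.1)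
    (h : chk f m v ms = true) (l : List ℕ) (hl : ∀ a ∈ l, 0 < a) (hs : l.sum = m) :
    (msadd ms l, RV v l) ∈ tabA := by
  induction f generalizing m v ms l with
  | zero => simp [chk] at h
  | succ f ih =>
    cases m with
    | zero =>
      simp only [chk] at h
      have hl0 : l = [] := by
        cases l with
        | nil => rfl
        | cons a l =>
          have := hl a List.mem_cons_self
          rw [List.sum_cons] at hs
          omega
      subst hl0
      rw [RV_nil_of_sum_zero v (fun p hp => (hv p hp).2.1)]
      exact lookB_mem h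
    | succ m =>
      simp only [chk, List.all_eq_true, List.mem_range] at h
      cases l with
      | nil => simp at hs
      | cons j l =>
        have hj := hl j List.mem_cons_self
        rw [List.sum_cons] at hs
        have hi := h (j - 1) (by omega)
        have e1 : m - (j - 1) = m + 1 - j := by omega
        rw [e1] at hi
        have ePT := PT_eq ⟨m + 1 - j, by omega⟩
        simp only at ePT
        rw [ePT] at hi
        have := ih (m + 1 - j) (by omega) _ _ (stepV_mem 12 (m + 1 - j) 12 v) hi l
          (fun a ha => hl a (List.mem_cons_of_mem _ ha)) (by omega)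
        rw [stepV_sound 12 (m+1) (m+1-j) j 12 (by omega) (by omega) v hv l]
        exact this

theorem count_msadd (l : List ℕ) (hl : ∀ a ∈ l, 0 < a ∧ a ≤ 12) (ms : List ℕ) (hms : ms.length = 12)
    (i : ℕ) (hi : i < 12) : (msadd ms l).getD i 0 = ms.getD i 0 + l.count (i + 1) := by
  induction l generalizing ms with
  | nil => simp [msadd]
  | cons j l ih =>
    simp only [msadd]
    have hj := hl j List.mem_cons_self
    rw [ih (fun a ha => hl a (List.mem_cons_of_mem _ ha)) _ (by simpa using hms)]
    rw [List.count_cons]
    rw [List.getD_eq_getElem _ _ (by simpa [hms] using hi), List.getElem_set]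
    by_cases hij : j - 1 = i
    · subst hij
      have : j = j - 1 + 1 := by omega
      simp only [← this, beq_self_eq_true, if_true]
      omega
    · rw [if_neg hij, ← List.getD_eq_getElem _ 0 (by simpa [hms] using hi)]
      have : ¬ (j = i + 1) := by omega
      simp [this]

theorem length_msadd (l : List ℕ) (ms : List ℕ) : (msadd ms l).length = ms.length := by
  induction l generalizing ms with
  | nil => rfl
  | cons j l ih =>
    simp only [msadd]
    rw [ih, List.length_set]

/-! ### masks -/

def toF (W : ℕ) : Finset (Fin 12) := univ.filter (fun i => Nat.testBit W i.1 = true)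

theorem mem_toF (W : ℕ) (i : Fin 12) : i ∈ toF W ↔ Nat.testBit W i.1 = true := by
  simp [toF]

theorem testBit_high {W : ℕ} (h : W < 4096) {i : ℕ} (hi : 12 ≤ i) : Nat.testBit W i = false := by
  apply Nat.testBit_lt_two_pow
  calc W < 2 ^ 12 := by simpa using h
    _ ≤ 2 ^ i := Nat.pow_le_pow_right (by norm_num) hi

theorem toF_inj {W W' : ℕ} (h : W < 4096) (h' : W' < 4096) (he : toF W = toF W') : W = W' := by
  apply Nat.eq_of_testBit_eq
  intro i
  by_cases hi : i < 12
  · have h1 := mem_toF W ⟨i, hi⟩
    have h2 := mem_toF W' ⟨i, hi⟩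
    rw [he] at h1
    have h3 := h1.symm.trans h2
    simp only at h3
    cases ha : W.testBit i <;> cases hb : W'.testBit i <;> simp_all
  · rw [testBit_high h (not_lt.1 hi), testBit_high h' (not_lt.1 hi)]

theorem toF_surj (T : Finset (Fin 12)) : ∃ W, W < 4096 ∧ toF W = T := by
  have hinj : Function.Injective (fun W : Fin 4096 => toF W.1) := by
    intro a b h
    exact Fin.ext (toF_inj a.2 b.2 h)
  have hbij : Function.Bijective (fun W : Fin 4096 => toF W.1) := by
    rw [Fintype.bijective_iff_injective_and_card]
    refine ⟨hinj, ?_⟩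
    simp
  obtain ⟨W, hW⟩ := hbij.2 T
  exact ⟨W.1, W.2, hW⟩

theorem toF_sub_iff {S W : ℕ} (hS : S < 4096) :
    Nat.land S W = S ↔ toF S ⊆ toF W := by
  constructor
  · intro h i hi
    rw [mem_toF] at hi ⊢
    rw [← h] at hi
    have : Nat.testBit (S &&& W) i.1 = true := hi
    rw [Nat.testBit_and] at this
    simp only [Bool.and_eq_true] at this
    exact this.2
  · intro h
    apply Nat.eq_of_testBit_eq
    intro i
    change Nat.testBit (S &&& W) i = _
    rw [Nat.testBit_and]
    by_cases hi : i < 12
    · cases hb : S.testBit i with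
      | false => rfl
      | true =>
        have := h ((mem_toF S ⟨i, hi⟩).2 hb)
        rw [mem_toF] at this
        simp only at this
        rw [this]; rfl
    · rw [testBit_high hS (not_lt.1 hi)]; rfl

theorem toF_xor {S W : ℕ} (h : toF S ⊆ toF W) : toF (Nat.xor W S) = toF W \ toF S := by
  ext i
  rw [Finset.mem_sdiff, mem_toF]
  change Nat.testBit (W ^^^ S) i.1 = true ↔ _
  rw [Nat.testBit_xor]
  have h1 := mem_toF W i
  have h2 := mem_toF S i
  rw [h1, h2]
  cases hS : S.testBit i.1 with
  | false => simp
  | true =>
    have := h (h2.2 hS)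
    rw [h1] at this
    simp [this]

theorem popc_eq (S : ℕ) : popc S = (toF S).card := by
  unfold popc toF
  rw [← List.toFinset_card_of_nodup ((List.nodup_range).filter _)]
  have : ((List.range 12).filter (fun i => Nat.testBit S i)).toFinset
      = (univ.filter (fun i : Fin 12 => Nat.testBit S i.1 = true)).map ⟨Fin.val, Fin.val_injective⟩ := by
    ext i
    simp only [List.mem_toFinset, List.mem_filter, List.mem_range, Finset.mem_map,
      Finset.mem_filter, Finset.mem_univ, true_and, Function.Embedding.coeFn_mk]
    constructor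
    · rintro ⟨h1, h2⟩
      exact ⟨⟨i, h1⟩, h2, rfl⟩
    · rintro ⟨j, h1, rfl⟩
      exact ⟨j.2, h1⟩
  rw [this, Finset.card_map]

theorem lowb_iff {v : ℕ} (hv : v < 12) (S : ℕ) :
    lowb v S = true ↔ Nat.testBit S v = true ∧ ∀ i < v, Nat.testBit S i = false := by
  unfold lowb
  rw [Nat.beq_eq]
  constructor
  · intro h
    have hb : ∀ i, (Nat.testBit S i && decide (i < v + 1)) = decide (v = i) := by
      intro i
      have := congrArg (fun x => Nat.testBit x i) h
      change Nat.testBit (S &&& (2 ^ (v+1) - 1)) i = Nat.testBit (2 ^ v) i at this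
      rwa [Nat.testBit_and, Nat.testBit_two_pow_sub_one, Nat.testBit_two_pow] at this
    constructor
    · have := hb v
      simpa using this
    · intro i hi
      have := hb i
      have h1 : i < v + 1 := by omega
      have h2 : ¬ (v = i) := by omega
      simpa [h1, h2] using this
  · rintro ⟨h1, h2⟩
    apply Nat.eq_of_testBit_eq
    intro i
    change Nat.testBit (S &&& (2 ^ (v+1) - 1)) i = _
    rw [Nat.testBit_and, Nat.testBit_two_pow_sub_one, Nat.testBit_two_pow]
    rcases lt_trichotomy i v with hi | hi | hi
    · rw [h2 i hi]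
      have : ¬ (v = i) := by omega
      simp [this]
    · subst hi
      simp [h1]
    · have h3 : ¬ (i < v + 1) := by omega
      have h4 : ¬ (v = i) := by omega
      simp [h3, h4]

/-- the graph -/
def GB (i j : Fin 12) : Bool := Nat.testBit (gadj i.1) j.1

def G : SimpleGraph (Fin 12) where
  Adj i j := GB i j = true
  symm := ⟨by decide +kernel⟩
  loopless := ⟨by decide +kernel⟩

end Pool.Agent.Y363.SnpData
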