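import Pool.Agent.Y363.SnpSound

set_option autoImplicit false

namespace Pool.Agent.Y363.SnpData

open Finset Pool.Agent.Y363.SchurList Pool.Agent.Y363.Machine

/-- stable sets -/
def st (T : Finset (Fin 12)) : Bool := decide (∀ u ∈ T, ∀ v ∈ T, ¬ GB u v = true)

theorem st_iff (T : Finset (Fin 12)) : st T = true ↔ ∀ u ∈ T, ∀ v ∈ T, ¬ G.Adj u v := by
  unfold st
  rw [decide_eq_true_iff]
  rfl

theorem land_eq_zero_iff (A B : ℕ) :
    Nat.land A B = 0 ↔ ∀ j, ¬ (Nat.testBit A j = true ∧ Nat.testBit B j = true) := by
  constructor
  · intro h j ⟨h1, h2⟩
    have := congrArg (fun x => Nat.testBit x j) h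
    change Nat.testBit (A &&& B) j = Nat.testBit 0 j at this
    rw [Nat.testBit_and, h1, h2] at this
    simp at this
  · intro h
    apply Nat.eq_of_testBit_eq
    intro j
    change Nat.testBit (A &&& B) j = _
    rw [Nat.testBit_and]
    have := h j
    cases ha : A.testBit j <;> cases hb : B.testBit j <;> simp_all

theorem land_two_pow_zero (W v : ℕ) : Nat.land W (2 ^ v) = 0 ↔ Nat.testBit W v = false := by
  rw [land_eq_zero_iff]
  constructor
  · intro h
    have := h v
    rw [Nat.testBit_two_pow] at this
    simpa using this
  · intro h j ⟨h1, h2⟩
    rw [Nat.testBit_two_pow] at h2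
    have : v = j := by simpa using h2
    subst this
    rw [h] at h1
    simp at h1

theorem stableB_iff {S : ℕ} (hS : S < 4096) : stableB S = true ↔ st (toF S) = true := by
  rw [st_iff]
  unfold stableB
  rw [List.all_eq_true]
  constructor
  · intro h u hu v hv huv
    rw [mem_toF] at hu hv
    have := h u.1 (List.mem_range.2 u.2)
    rw [hu] at this
    simp only [cond_true] at this
    rw [Nat.beq_eq, land_eq_zero_iff] at this
    exact this v.1 ⟨hv, huv⟩
  · intro h i hi
    rw [List.mem_range] at hi
    cases hb : Nat.testBit S i with
    | false => rfl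
    | true =>
      simp only [cond_true]
      rw [Nat.beq_eq, land_eq_zero_iff]
      rintro j ⟨h1, h2⟩
      by_cases hj : j < 12
      · exact h ⟨i, hi⟩ ((mem_toF S ⟨i, hi⟩).2 hb) ⟨j, hj⟩ ((mem_toF S ⟨j, hj⟩).2 h1) h2
      · rw [testBit_high hS (not_lt.1 hj)] at h1
        simp at h1

theorem mem_stabL (S : ℕ) : S ∈ stabL ↔ S < 4096 ∧ st (toF S) = true := by
  rw [stabL_eq, List.mem_filter, List.mem_range]
  constructor
  · rintro ⟨h1, h2⟩
    exact ⟨h1, (stableB_iff h1).1 h2⟩
  · rintro ⟨h1, h2⟩
    exact ⟨h1, (stableB_iff h1).2 h2⟩

theorem nodup_stabL : stabL.Nodup := by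
  rw [stabL_eq]
  exact List.nodup_range.filter _

theorem sum_filter_drop {α : Type*} (L : List α) (p : α → Bool) (f : α → ℕ)
    (h : ∀ x ∈ L, p x = false → f x = 0) : ((L.filter p).map f).sum = (L.map f).sum := by
  induction L with
  | nil => rfl
  | cons a L ih =>
    have ih' := ih (fun x hx => h x (List.mem_cons_of_mem _ hx))
    cases hp : p a with
    | true =>
      rw [List.filter_cons_of_pos hp, List.map_cons, List.map_cons, List.sum_cons, List.sum_cons, ih']
    | false =>
      rw [List.filter_cons_of_neg (by simp [hp]), List.map_cons, List.sum_cons,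
        h a List.mem_cons_self hp, ih', zero_add]

theorem sum_by_count (l : List ℕ) (H : ℕ → ℕ) (hl : ∀ a ∈ l, 0 < a ∧ a ≤ 12) :
    (l.map H).sum = ((List.range 12).map (fun i => l.count (i+1) * H (i+1))).sum := by
  rw [← List.sum_toFinset _ List.nodup_range]
  induction l with
  | nil => simp
  | cons a l ih =>
    rw [List.map_cons, List.sum_cons, ih (fun x hx => hl x (List.mem_cons_of_mem _ hx))]
    obtain ⟨h1, h2⟩ := hl a List.mem_cons_self
    have e : ∀ i, (a :: l).count (i+1) * H (i+1)
        = l.count (i+1) * H (i+1) + (if a - 1 = i then H a else 0) := by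
      intro i
      rw [List.count_cons, add_mul]
      congr 1
      by_cases hi : a - 1 = i
      · have : a = i + 1 := by omega
        subst this
        simp
      · have : ¬ (a = i + 1) := by omega
        simp [hi, this]
    simp only [e]
    rw [Finset.sum_add_distrib, Finset.sum_ite_eq, if_pos (by
      rw [List.mem_toFinset, List.mem_range]; omega), add_comm]

theorem list_all_zero_iff (ms : List ℕ) :
    (ms.all (fun m => Nat.beq m 0)) = true ↔ ∀ i < ms.length, ms.getD i 0 = 0 := by
  rw [List.all_eq_true]
  constructor
  · intro h i hi
    rw [List.getD_eq_getElem _ _ hi]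
    exact Nat.eq_of_beq_eq_true (h _ (List.getElem_mem hi))
  · intro h x hx
    obtain ⟨i, hi, rfl⟩ := List.getElem_of_mem hx
    have := h i hi
    rw [List.getD_eq_getElem _ _ hi] at this
    rw [this]
    rfl

theorem cnt_sound (n v : ℕ) (hvn : v + n = 12) (W : ℕ) (hW : W < 4096)
    (hlow : ∀ i < v, Nat.testBit W i = false) (l : List ℕ) (hl : ∀ a ∈ l, 0 < a ∧ a ≤ 12)
    (ms : List ℕ) (hlen : ms.length = 12) (hms : ∀ i < 12, ms.getD i 0 = l.count (i+1)) :
    cnt (tabsR v n) W ms = trF st (toF W) l := by
  induction n generalizing v W l ms with
  | zero =>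
    have hv : v = 12 := by omega
    subst hv
    have hW0 : W = 0 := by
      apply Nat.eq_of_testBit_eq
      intro i
      rw [Nat.zero_testBit]
      by_cases hi : i < 12
      · exact hlow i hi
      · exact testBit_high hW (not_lt.1 hi)
    subst hW0
    have htoF : toF 0 = ∅ := by
      ext i
      rw [mem_toF]
      simp
    rw [htoF]
    simp only [tabsR, cnt]
    have hb : Nat.beq 0 0 = true := rfl
    rw [hb, cond_true]
    cases l with
    | nil =>
      have : (ms.all (fun m => Nat.beq m 0)) = true := by
        rw [list_all_zero_iff]
        intro i hi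
        rw [hms i (by omega)]
        simp
      rw [this, cond_true, trF_nil, if_pos rfl]
    | cons a l =>
      obtain ⟨h1, h2⟩ := hl a List.mem_cons_self
      have : ¬ (ms.all (fun m => Nat.beq m 0)) = true := by
        rw [list_all_zero_iff]
        intro h
        have h3 := h (a - 1) (by omega)
        rw [hms (a-1) (by omega)] at h3
        have h4 : a - 1 + 1 = a := by omega
        rw [h4, List.count_cons_self] at h3
        omega
      have h5 : (ms.all (fun m => Nat.beq m 0)) = false := by simpa using this
      rw [h5, cond_false, trF_sum_ne]
      rw [List.sum_cons, Finset.card_empty]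
      omega
  | succ n ih =>
    simp only [tabsR, entry, cnt]
    cases hb : Nat.beq (Nat.land W (2 ^ v)) 0 with
    | true =>
      rw [cond_true]
      have h0 := (land_two_pow_zero W v).1 (Nat.eq_of_beq_eq_true hb)
      apply ih (v+1) (by omega) W hW _ l hl ms hlen hms
      intro i hi
      rcases Nat.lt_succ_iff_lt_or_eq.1 hi with h | h
      · exact hlow i h
      · rw [h]; exact h0
    | false =>
      rw [cond_false]
      have hbit : Nat.testBit W v = true := by
        by_contra hne
        have h0 : Nat.testBit W v = false := by simpa using hne
        rw [← land_two_pow_zero] at h0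
        rw [h0] at hb
        simp at hb
      have hv12 : v < 12 := by omega
      have hvmem : (⟨v, hv12⟩ : Fin 12) ∈ toF W := (mem_toF _ _).2 hbit
      rw [trF_erase st ⟨v, hv12⟩ l (toF W) hvmem, sum_by_count _ _ hl]
      rw [sum_filter_drop]
      · rw [List.map_map]
        congr 1
        apply List.map_congr_left
        intro i hi
        rw [List.mem_range] at hi
        simp only [Function.comp]
        rw [hms i hi]
        cases hc : Nat.beq (List.count (i+1) l) 0 with
        | true =>
          have := Nat.eq_of_beq_eq_true hc
          rw [cond_true, this, zero_mul]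
        | false =>
          rw [cond_false]
          have hcpos : 0 < l.count (i+1) := by
            rcases Nat.eq_zero_or_pos (l.count (i+1)) with h | h
            · rw [h] at hc; simp at hc
            · exact h
          have hmem : i + 1 ∈ l := List.count_pos_iff.1 hcpos
          congr 1
          rw [← List.sum_toFinset _ (nodup_stabL.filter _)]
          have e1 : ∀ S ∈ (stabL.filter (fun S => lowb v S && Nat.beq (popc S) (i + 1))).toFinset,
              (cond (Nat.beq (Nat.land S W) S)
                (cnt (tabsR (v + 1) n) (Nat.xor W S) (ms.set i (List.count (i + 1) l - 1))) 0)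
              = if toF S ⊆ toF W then trF st (toF W \ toF S) (l.erase (i+1)) else 0 := by
            intro S hS
            rw [List.mem_toFinset, List.mem_filter, mem_stabL] at hS
            obtain ⟨⟨hS1, hS2⟩, hS3⟩ := hS
            rw [Bool.and_eq_true, lowb_iff hv12] at hS3
            obtain ⟨⟨hS4, hS5⟩, hS6⟩ := hS3
            by_cases hsub : toF S ⊆ toF W
            · have h1 := (toF_sub_iff (W := W) hS1).2 hsub
              rw [h1, if_pos hsub]
              have h2 : Nat.beq S S = true := by simp
              rw [h2, cond_true, ← toF_xor hsub]
              apply ih (v+1) (by omega)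
              · exact Nat.xor_lt_two_pow (n := 12) hW hS1
              · intro j hj
                change Nat.testBit (W ^^^ S) j = false
                rw [Nat.testBit_xor]
                rcases Nat.lt_succ_iff_lt_or_eq.1 hj with h | h
                · rw [hlow j h, hS5 j h]; rfl
                · rw [h, hbit, hS4]; rfl
              · intro a ha
                exact hl a (List.mem_of_mem_erase ha)
              · rw [List.length_set]; exact hlen
              · intro j hj
                rw [List.getD_eq_getElem _ _ (by rw [List.length_set, hlen]; exact hj),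
                  List.getElem_set]
                by_cases hij : i = j
                · subst hij
                  rw [if_pos rfl, List.count_erase_self]
                · rw [if_neg hij, ← List.getD_eq_getElem _ 0 (by rw [hlen]; exact hj), hms j hj]
                  rw [List.count_erase_of_ne (by omega)]
            · rw [if_neg hsub]
              have : Nat.beq (Nat.land S W) S = false := by
                by_contra hne
                have hne' : Nat.beq (Nat.land S W) S = true := by simpa using hne
                exact hsub ((toF_sub_iff hS1).1 (Nat.eq_of_beq_eq_true hne'))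
              rw [this, cond_false]
          rw [Finset.sum_congr rfl e1, ← Finset.sum_filter]
          apply Finset.sum_bij (i := fun S _ => toF S)
          · intro S hS
            rw [Finset.mem_filter, List.mem_toFinset, List.mem_filter, mem_stabL] at hS
            obtain ⟨⟨⟨hS1, hS2⟩, hS3⟩, hS0⟩ := hS
            rw [Bool.and_eq_true, lowb_iff hv12] at hS3
            obtain ⟨⟨hS4, hS5⟩, hS6⟩ := hS3
            rw [Finset.mem_filter, Finset.mem_powerset]
            refine ⟨hS0, ⟨hS2, ?_⟩, (mem_toF _ _).2 hS4⟩
            rw [← popc_eq]
            exact Nat.eq_of_beq_eq_true hS6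
          · intro S hS S' hS' he
            rw [Finset.mem_filter, List.mem_toFinset, List.mem_filter, mem_stabL] at hS hS'
            exact toF_inj hS.1.1.1 hS'.1.1.1 he
          · intro T hT
            rw [Finset.mem_filter, Finset.mem_powerset] at hT
            obtain ⟨hT1, ⟨hT2, hT3⟩, hT4⟩ := hT
            obtain ⟨S, hS, rfl⟩ := toF_surj T
            refine ⟨S, ?_, rfl⟩
            rw [Finset.mem_filter, List.mem_toFinset, List.mem_filter, mem_stabL]
            refine ⟨⟨⟨hS, hT2⟩, ?_⟩, hT1⟩
            rw [Bool.and_eq_true, lowb_iff hv12]
            refine ⟨⟨(mem_toF _ _).1 hT4, ?_⟩, ?_⟩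
            · intro j hj
              by_contra hne
              have hj12 : j < 12 := by omega
              have h1 : (⟨j, hj12⟩ : Fin 12) ∈ toF S := (mem_toF _ _).2 (by simpa using hne)
              have h2 := (mem_toF _ _).1 (hT1 h1)
              have h3 := hlow j hj
              simp only at h2
              rw [h3] at h2
              simp at h2
            · rw [popc_eq, hT3]
              simp
          · intro S _
            rfl
      · intro p hp hpe
        have : p.2 = [] := by simpa using hpe
        rw [this]
        simp

end Pool.Agent.Y363.SnpData
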