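import Pool.Agent.Y363.SnpData

set_option autoImplicit false
set_option maxRecDepth 100000

namespace Pool.Agent.Y363.SnpData

open Pool.Agent.Y363.SchurList

theorem stabL_eq : stabL = (List.range 4096).filter stableB := by decide +kernel

theorem tabs_eq : tabs = tabsR 0 12 := by decide +kernel

theorem PT_eq : ∀ m : Fin 13, PT.getD m.1 [] = partsB 12 m.1 12 := by decide +kernel

theorem cL_ok : ∀ p ∈ cL, p.1.length = 12 ∧ p.1.sum = 12 ∧ Dec p.1 := by decide +kernel

end Pool.Agent.Y363.SnpData
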